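import Pool.Agent.Q72.OK.Brody
import Pool.Agent.Helper206.Hyp

/-! From Brody's theorem to the Kobayashi pseudodistance of orbifold pairs. -/

set_option autoImplicit false

open Filter Topology Metric Set
open scoped LinearAlgebra.Projectivization
open Pool.Agent.Helper206 (mob mob_mem mob_zero mob_differentiableOn exists_mob_eq phd cost
  phd_le_cost phd_nonneg)

namespace Pool.Agent.Q72.OK

variable {N : ℕ} {I : Type} {m : I → ℕ} {q : I → (Fin (N + 1) → ℂ) → ℂ}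

/-- Lipschitz estimate for discs -/
theorem disc_lip (hq : HomFun q) {S : Set (Mat N)} (hS : IsCompact S) {C : ℝ} (hC : 0 < C)
    (hb : ∀ Ψ, HolO m q (ball 0 1) Ψ → (∀ z ∈ ball (0 : ℂ) 1, Ψ z ∈ S) → ‖fderiv ℝ Ψ 0‖ ≤ C) :
    ∃ L : ℝ, 0 < L ∧ ∀ Ψ, HolO m q (ball 0 1) Ψ → (∀ z ∈ ball (0 : ℂ) 1, Ψ z ∈ S) →
      ∀ s ∈ ball (0 : ℂ) 1, ∀ t ∈ ball (0 : ℂ) 1, dist (Ψ t) (Ψ s) ≤ L * cost s t := by
  obtain ⟨D, hD⟩ := hS.isBounded.exists_norm_le
  refine ⟨max (2 * C) (4 * max D 1), lt_max_of_lt_left (by positivity), fun Ψ hΨ hΨS s hs t ht => ?_⟩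
  obtain ⟨ζ, hζ, hζn, hζt⟩ := exists_mob_eq hs ht
  have hmap : MapsTo (mob s) (ball 0 1) (ball 0 1) := fun z hz => mob_mem hs hz
  set h : ℂ → Mat N := fun z => Ψ (mob s z) with hh
  have hH : HolO m q (ball 0 1) h := hΨ.comp hq isOpen_ball (mob_differentiableOn hs) hmap
  have hHS : ∀ z ∈ ball (0 : ℂ) 1, h z ∈ S := fun z hz => hΨS _ (hmap hz)
  have h0 : h 0 = Ψ s := by rw [hh]; simp only [mob_zero]
  have h1 : h ζ = Ψ t := by rw [hh]; simp only [hζt]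
  rw [← h0, ← h1, dist_eq_norm]
  have hcost : ‖ζ‖ ≤ cost s t := by rw [hζn]; exact phd_le_cost hs ht
  suffices ‖h ζ - h 0‖ ≤ max (2 * C) (4 * max D 1) * ‖ζ‖ from
    this.trans (mul_le_mul_of_nonneg_left hcost (le_max_of_le_left (by positivity)))
  rcases le_or_gt ‖ζ‖ (1 / 2) with hle | hgt
  · have hder : ∀ z ∈ closedBall (0 : ℂ) (1 / 2), ‖fderiv ℝ h z‖ ≤ 2 * C := by
      intro z hz
      have hz' : ‖z‖ ≤ 1 / 2 := mem_closedBall_zero_iff.1 hz
      have hz1 : z ∈ ball (0 : ℂ) 1 := mem_ball_zero_iff.2 (by linarith)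
      have hsub : ball (0 : ℂ) 1 ⊆ aff z (1 / 2) ⁻¹' ball (0 : ℂ) 1 := by
        intro w hw
        rw [mem_preimage, mem_ball_zero_iff]
        rw [mem_ball_zero_iff] at hw
        unfold aff
        refine lt_of_le_of_lt (norm_add_le _ _) ?_
        rw [norm_mul, Complex.norm_real, Real.norm_of_nonneg (by norm_num)]
        linarith
      have h2 := hb (fun w => h (aff z (1 / 2) w)) ((hH.aff hq isOpen_ball z (1 / 2)).mono hsub)
        (fun w hw => hHS _ (hsub hw))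
      have h3 : aff z (1 / 2) 0 = z := by simp [aff]
      rw [norm_fderiv_aff (by norm_num) (by rw [h3]; exact hH.differentiableAt hz1), h3] at h2
      linarith
    have h4 := (convex_closedBall (0 : ℂ) (1 / 2)).norm_image_sub_le_of_norm_fderiv_le
      (fun x hx => hH.differentiableAt (closedBall_subset_ball (by norm_num) hx)) hder
      (mem_closedBall_self (by norm_num)) (mem_closedBall_zero_iff.2 hle)
    rw [sub_zero] at h4
    exact h4.trans (mul_le_mul_of_nonneg_right (le_max_left _ _) (norm_nonneg _))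
  · have h2 := hD _ (hHS ζ hζ)
    have h3 := hD _ (hHS 0 (mem_ball_self one_pos))
    have h4 := norm_sub_le (h ζ) (h 0)
    have h5 : D ≤ max D 1 := le_max_left _ _
    calc ‖h ζ - h 0‖ ≤ 2 * max D 1 := by linarith
      _ = 4 * max D 1 * (1 / 2) := by ring
      _ ≤ 4 * max D 1 * ‖ζ‖ := by
          apply mul_le_mul_of_nonneg_left hgt.le
          have : 1 ≤ max D 1 := le_max_right _ _
          linarith
      _ ≤ _ := mul_le_mul_of_nonneg_right (le_max_right _ _) (norm_nonneg _)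

/-! ### points of projective space -/

lemma Phi_rep {b : Fin (N + 1) → ℂ} (hb : b ≠ 0) :
    Phi (Projectivization.mk ℂ b hb).rep = Phi b := by
  obtain ⟨a, ha⟩ := Projectivization.exists_smul_eq_mk_rep ℂ b hb
  rw [← ha]
  exact Phi_smul a.ne_zero b

/-- the projection matrix of a point -/
noncomputable def PhiP (p : ℙ ℂ (Fin (N + 1) → ℂ)) : Mat N := Phi p.rep

lemma PhiP_inj {p q : ℙ ℂ (Fin (N + 1) → ℂ)} (h : PhiP p = PhiP q) : p = q := by
  obtain ⟨c, hc, hcq⟩ := Phi_inj p.rep_nonzero q.rep_nonzero h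
  rw [← p.mk_rep, ← q.mk_rep]
  rw [Projectivization.mk_eq_mk_iff']
  exact ⟨c⁻¹, by rw [hcq, smul_smul, inv_mul_cancel₀ hc, one_smul]⟩

lemma cost_eq (s t : ℂ) : cost s t = poincareDist s t := rfl

/-- the linear forms -/
def lin (ℓ : (Fin (N + 1) → ℂ) ≃ₗ[ℂ] (Fin (N + 1) → ℂ)) (i : Fin (N + 1)) (x : Fin (N + 1) → ℂ) : ℂ :=
  ℓ x i

lemma lin_hom (ℓ : (Fin (N + 1) → ℂ) ≃ₗ[ℂ] (Fin (N + 1) → ℂ)) : HomFun (lin ℓ) := by
  refine ⟨fun i => ?_, fun i => ⟨1, fun c x => ?_⟩⟩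
  · have h1 : Differentiable ℂ (fun x => ℓ x) :=
      (LinearMap.toContinuousLinearMap (ℓ : (Fin (N + 1) → ℂ) →ₗ[ℂ] (Fin (N + 1) → ℂ))).differentiable
    exact differentiable_pi.1 h1 i
  · unfold lin
    rw [map_smul, pow_one]
    rfl

lemma OrbifoldOn.holO {k : ℕ} {ℓ : (Fin (N + 1) → ℂ) ≃ₗ[ℂ] (Fin (N + 1) → ℂ)} {U : Set ℂ}
    {f : ℂ → ℙ ℂ (Fin (N + 1) → ℂ)} (h : OrbifoldOn k ℓ U f) :
    HolO (fun _ => k) (lin ℓ) U (fun z => PhiP (f z)) := by
  intro z hz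
  obtain ⟨V, b, hV, hzV, hb, hf, ho⟩ := h z hz
  refine ⟨V, b, hV, hzV, hb, fun w hw => ?_, fun w hw i hi => ho w hw i hi⟩
  obtain ⟨hb0, e⟩ := hf w hw
  refine ⟨hb0, ?_⟩
  change PhiP (f w) = _
  rw [e]
  exact Phi_rep hb0

/-- Lipschitz discs imply lower bounds for the Kobayashi pseudodistance -/
theorem kobayashi_of_lip {k : ℕ} {ℓ : (Fin (N + 1) → ℂ) ≃ₗ[ℂ] (Fin (N + 1) → ℂ)}
    {X : Set (ℙ ℂ (Fin (N + 1) → ℂ))} {L : ℝ} (hL : 0 < L)
    (h : ∀ f : ℂ → ℙ ℂ (Fin (N + 1) → ℂ), OrbifoldOn k ℓ (ball 0 1) f →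
      (∀ z ∈ ball (0 : ℂ) 1, f z ∈ X) →
      ∀ s ∈ ball (0 : ℂ) 1, ∀ t ∈ ball (0 : ℂ) 1,
        dist (PhiP (f t)) (PhiP (f s)) ≤ L * poincareDist s t)
    (p q : ℙ ℂ (Fin (N + 1) → ℂ)) :
    ENNReal.ofReal (dist (PhiP q) (PhiP p) / L) ≤ kobayashi k ℓ X p q := by
  unfold kobayashi
  refine le_iInf₂ fun c hc => ?_
  apply ENNReal.ofReal_le_ofReal
  obtain ⟨k, r, f, s, t, h0, hl, hi, rfl⟩ := hc
  have h1 := Pool.Agent.Helper206.chain_bound k (fun j => PhiP (r j))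
    (fun i => L * poincareDist (s i) (t i))
    (by
      intro i
      obtain ⟨-, -, hs, ht, -, -⟩ := hi i
      exact mul_nonneg hL.le ((phd_nonneg (s i) (t i)).trans (phd_le_cost hs ht)))
    (by
      intro i
      obtain ⟨hf, hfS, hs, ht, es, et⟩ := hi i
      have := h (f i) hf hfS _ hs _ ht
      rwa [es, et] at this) (Fin.last k)
  simp only [h0, hl] at h1
  rw [← Finset.mul_sum] at h1
  rw [div_le_iff₀ hL]
  linarith

end Pool.Agent.Q72.OK
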