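import Pool.Agent.Q72.OK.Def

/-!
Statements of the lemma jobs of the project OK.
-/

set_option autoImplicit false

namespace Pool.Agent.Q72.OK

open MvPolynomial Metric
open scoped NumberField LinearAlgebra.Projectivization

/-- JOB W: an entire function with given orders at all points. -/
def S_W : Prop := ∀ D : ℂ → ℕ, (∀ R : ℝ, ({z | D z ≠ 0} ∩ closedBall (0 : ℂ) R).Finite) →
  ∃ g : ℂ → ℂ, Differentiable ℂ g ∧ ∀ z, analyticOrderAt g z = D z

/-- JOB R: entire homogeneous coordinates without common zeros. -/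
def S_R : Prop := ∀ (n : ℕ) (F : ℂ → Fin (n + 1) → ℂ), Differentiable ℂ F → (∃ z, F z ≠ 0) →
  ∃ (g : ℂ → ℂ) (G : ℂ → Fin (n + 1) → ℂ), Differentiable ℂ g ∧ Differentiable ℂ G ∧
    (∀ z, F z = g z • G z) ∧ ∀ z, G z ≠ 0

/-- JOB A1: the integral points are finite if there are no monomial curves. -/
def S_A1 : Prop := ∀ (K : Type) [Field K] [NumberField K] (ι κ : Type) [Finite ι] (n : ℕ)
  (σ : K →+* ℂ) (F : ι → MvPolynomial (Fin (n + 1)) (𝓞 K))
  (G : κ → MvPolynomial (Fin (n + 1)) (𝓞 K)), (∀ i, ∃ e, (F i).IsHomogeneous e) →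
  (∀ l, ∃ e, (G l).IsHomogeneous e) → (∀ B, MonCurvesIn σ F G B) → IntegralFinite F G

/-- JOB A2: a monomial curve outside of `V'` gives infinitely many integral points. -/
def S_A2 : Prop := ∀ (K : Type) [Field K] [NumberField K] (ι κ : Type) (n : ℕ)
  (σ : K →+* ℂ) (F : ι → MvPolynomial (Fin (n + 1)) (𝓞 K))
  (G : κ → MvPolynomial (Fin (n + 1)) (𝓞 K)), (∀ i, ∃ e, (F i).IsHomogeneous e) →
  (∀ l, ∃ e, (G l).IsHomogeneous e) → IntegralFinite F G → ∀ B, MonCurvesIn σ F G B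

/-- JOB H: multiplicities at least `m` pass to the limit. -/
def S_H : Prop := ∀ (ι : Type) (l : Filter ι) [l.NeBot] (U : Set ℂ) (g : ι → ℂ → ℂ) (h : ℂ → ℂ)
  (m : ℕ), IsOpen U → (∀ᶠ i in l, DifferentiableOn ℂ (g i) U) →
  TendstoLocallyUniformlyOn g h l U →
  (∀ᶠ i in l, ∀ z ∈ U, g i z = 0 → (m : ℕ∞) ≤ analyticOrderAt (g i) z) →
  ∀ z ∈ U, h z = 0 → (m : ℕ∞) ≤ analyticOrderAt h z

end Pool.Agent.Q72.OK
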