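import Pool.Agent.Q72.OK.A1s
import Pool.Agent.Q204.UF.Pair

/-!
Finiteness of the integral points of a projective variety with respect to `n + 1` hyperplanes.
-/

set_option autoImplicit false

namespace Pool.Agent.Q72.OK

open MvPolynomial Module
open Pool.Agent.Helper259.AbsHt Pool.Agent.Y215.SK Pool.Agent.Y215.AF Pool.Agent.Q51.UF
open Pool.Agent.H533R3.SL (cur)
open scoped NumberField LinearAlgebra.Projectivization

/-- Northcott -/
theorem finite_pts (L : Type) [Field L] [NumberField L] (n : ℕ) (ε : L →+* Qbar) (B : ℝ) :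
    {P : ℙ L (Fin (n + 1) → L) | ∃ (x : Fin (n + 1) → L) (h : x ≠ 0),
      P = Projectivization.mk L x h ∧ absLogHeight (fun a => ε (x a)) ≤ B}.Finite := by
  classical
  have hpos : (0 : ℝ) < finrank ℚ L := by
    have := Module.finrank_pos (R := ℚ) (M := L)
    exact_mod_cast this
  have hA : {y : L | absLogHeight ![1, ε y] ≤ B}.Finite := by
    have h1 := NumberField.finite_setOfPred_logHeight₁_le L (B * finrank ℚ L)
    refine h1.subset fun y hy => ?_
    rw [Set.mem_ofPred_eq] at hy ⊢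
    have e1 : ![ε y, 1] = fun i => ε (![y, 1] i) := by
      funext i
      fin_cases i <;> simp
    have e2 : absLogHeight ![ε y, 1] ≤ absLogHeight ![1, ε y] := by
      have := absLogHeight_comp_le ![1, 0] (![1, ε y] : Fin 2 → Qbar)
      have e : ![1, ε y] ∘ ![1, 0] = ![ε y, 1] := by
        funext j
        fin_cases j <;> simp
      rwa [e] at this
    rw [e1, absLogHeight_eq L ε] at e2
    rw [Height.logHeight₁_eq_logHeight]
    have h2 := e2.trans hy
    rwa [div_le_iff₀ hpos] at h2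
  set A : Set L := {y : L | absLogHeight ![1, ε y] ≤ B} with hAdef
  have hpi : {y : Fin (n + 1) → L | ∀ b, y b ∈ A}.Finite := by
    have h1 := Set.Finite.pi (t := fun _ : Fin (n + 1) => A) fun _ => hA
    refine h1.subset fun y hy => ?_
    rw [Set.mem_univ_pi]
    exact hy
  have h1 : (1 : Fin (n + 1) → L) ≠ 0 := one_ne_zero
  refine (hpi.image fun y => if h : y ≠ 0 then Projectivization.mk L y h else
    Projectivization.mk L 1 h1).subset ?_
  rintro P ⟨x, hx, rfl, hxB⟩
  obtain ⟨a, ha⟩ := Function.ne_iff.1 hx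
  have ha' : x a ≠ 0 := ha
  set y : Fin (n + 1) → L := fun b => x b / x a with hy
  have hya : y a = 1 := div_self ha'
  have hy0 : y ≠ 0 := by
    intro h
    have := congrFun h a
    rw [hya] at this
    exact one_ne_zero this
  have hyB : absLogHeight (fun b => ε (y b)) ≤ B := by
    have h2 := absLogHeight_smul (fun b => ε (x b)) (c := ε (x a)⁻¹)
      ((map_ne_zero ε).2 (inv_ne_zero ha'))
    have h3 : (ε (x a)⁻¹ • fun b => ε (x b)) = fun b => ε (y b) := by
      funext b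
      rw [Pi.smul_apply, smul_eq_mul, hy, ← map_mul, inv_mul_eq_div]
    rw [h3] at h2
    rw [h2]
    exact hxB
  refine ⟨y, fun b => ?_, ?_⟩
  · have h2 := aff_le_of_eq_one (fun b => ε (y b)) a (by rw [hya, map_one]) b
    exact h2.trans hyB
  · simp only
    rw [dif_pos hy0, Projectivization.mk_eq_mk_iff']
    refine ⟨(x a)⁻¹, ?_⟩
    funext b
    rw [Pi.smul_apply, smul_eq_mul, hy, inv_mul_eq_div]

/-- the linear form -/
theorem sum_single {R : Type} [CommRing R] {n : ℕ} (ℓ : (Fin (n + 1) → R) ≃ₗ[R] (Fin (n + 1) → R))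
    (x : Fin (n + 1) → R) (i : Fin (n + 1)) : ℓ x i = ∑ a, x a * ℓ (Pi.single a 1) i := by
  have h1 : x = ∑ a, x a • (Pi.single a 1 : Fin (n + 1) → R) := by
    funext b
    simp [Finset.sum_apply, Pi.single_apply]
  conv_lhs => rw [h1, map_sum, Finset.sum_apply]
  refine Finset.sum_congr rfl fun a _ => ?_
  rw [map_smul, Pi.smul_apply, smul_eq_mul]

/-- **Finiteness of the integral points.** -/
theorem core (L : Type) [Field L] [NumberField L] (ι κ : Type) [Finite ι] (n : ℕ) (τ : L →+* ℂ)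
    (F : ι → MvPolynomial (Fin (n + 1)) L) (G : κ → MvPolynomial (Fin (n + 1)) L)
    (hF : ∀ i, ∃ e, (F i).IsHomogeneous e)
    (ℓ : (Fin (n + 1) → L) ≃ₗ[L] (Fin (n + 1) → L)) (Γ : Subgroup Lˣ) (hΓ : Γ.FG)
    (hmon : ∀ (x : Fin (n + 1) → ℂ) (k : Fin (n + 1) → ℕ),
      (∃ i j, x i ≠ 0 ∧ x j ≠ 0 ∧ k i ≠ k j) →
      (∀ t : ℂ, t ≠ 0 → ∀ i,
        eval₂ τ (fun a => ∑ j, τ (ℓ.symm (Pi.single j 1) a) * (x j * t ^ k j)) (F i) = 0) →
      ∀ t : ℂ, t ≠ 0 → ∀ l,
        eval₂ τ (fun a => ∑ j, τ (ℓ.symm (Pi.single j 1) a) * (x j * t ^ k j)) (G l) = 0) :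
    {P : ℙ L (Fin (n + 1) → L) | ∃ (x : Fin (n + 1) → L) (h : x ≠ 0),
      P = Projectivization.mk L x h ∧ (∀ i, eval x (F i) = 0) ∧ (∃ l, eval x (G l) ≠ 0) ∧
      ∀ i, ℓ x i = 0 ∨ ∃ γ ∈ Γ, ℓ x i = (γ : Lˣ)}.Finite := by
  classical
  cases nonempty_fintype ι
  -- embeddings
  obtain ⟨ε, -⟩ : ∃ ε : L →+* Qbar, True := ⟨(IsAlgClosed.lift : L →ₐ[ℚ] AlgebraicClosure ℚ), trivial⟩
  obtain ⟨ρ, hρ⟩ : ∃ ρ : Qbar →+* ℂ, ∀ a, ρ (ε a) = τ a := by
    let _ : Algebra L Qbar := ε.toAlgebra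
    let _ : Algebra L ℂ := τ.toAlgebra
    have : IsScalarTower ℚ L Qbar := IsScalarTower.of_algebraMap_eq fun a => by
      change _ = ε (algebraMap ℚ L a)
      rw [← RingHom.comp_apply]
      exact congrArg (fun φ : ℚ →+* Qbar => φ a) (Subsingleton.elim _ _)
    have : Algebra.IsAlgebraic ℚ Qbar := AlgebraicClosure.isAlgebraic ℚ
    have : Algebra.IsAlgebraic L Qbar := Algebra.IsAlgebraic.tower_top (K := ℚ) L
    let ψ : Qbar →ₐ[L] ℂ := IsAlgClosed.lift
    exact ⟨ψ, fun a => ψ.commutes a⟩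
  -- the forms
  obtain ⟨q, hq⟩ : ∃ q, q = Fintype.card ι := ⟨_, rfl⟩
  obtain ⟨eι⟩ : Nonempty (ι ≃ Fin q) := ⟨hq ▸ Fintype.equivFin ι⟩
  choose e he using hF
  set d : Fin (q + 1) → ℕ := Fin.cons 1 fun i => e (eι.symm i) with hd
  have hd0 : d 0 = 1 := by rw [hd, Fin.cons_zero]
  set Γ' : Subgroup Qbarˣ := Γ.map (Units.map (ε : L →* Qbar)) with hΓ'
  have hΓ'fg : Γ'.FG := by
    obtain ⟨T, hT⟩ := hΓ
    refine ⟨T.image (Units.map (ε : L →* Qbar)), ?_⟩
    rw [hΓ', ← hT, MonoidHom.map_closure, Finset.coe_image]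
  obtain ⟨C, hC0, hC⟩ := Pool.Agent.Q204.UF.pair_heights (n := n) (r := n + 1) d (∑ i, d i)
    (by rw [Fin.sum_univ_succ, hd0]; omega) (by rw [hd0])
    (fun i => Finset.single_le_sum (f := d) (fun _ _ => Nat.zero_le _) (Finset.mem_univ i)) Γ' hΓ'fg
  set lin : Fin (n + 1) → MvPolynomial (Fin (n + 1)) Qbar := fun j0 =>
    ∑ a, MvPolynomial.C (ε (ℓ (Pi.single a 1) j0)) * X a with hlin
  set FF : Fin (n + 1) → Fin (q + 1) → MvPolynomial (Fin (n + 1)) Qbar := fun j0 =>
    Fin.cons (lin j0) fun i => map ε (F (eι.symm i)) with hFF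
  set VV : Finset (Fin (n + 1)) → Fin (n + 1) → Fin (n + 1) → Qbar := fun J j a =>
    if j ∈ J then ε (ℓ.symm (Pi.single j 1) a) else 0 with hVV
  refine (Set.finite_iUnion fun p : Fin (n + 1) × Finset (Fin (n + 1)) => finite_pts L n ε
    (C * (1 + hA (cof d (FF p.1)) + hA ![1] + hAV (VV p.2)))).subset ?_
  rintro P ⟨x, hx, rfl, hxF, ⟨l0, hl0⟩, hxΓ⟩
  obtain ⟨y, hy⟩ : ∃ y, y = ℓ x := ⟨_, rfl⟩
  have hxy : ∀ a, x a = ∑ j, y j * ℓ.symm (Pi.single j 1) a := by
    intro a
    have h1 := sum_single ℓ.symm y a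
    rw [hy, ℓ.symm_apply_apply] at h1
    rw [hy]
    exact h1
  obtain ⟨j0, hj0⟩ : ∃ j, y j ≠ 0 := by
    by_contra hcon
    push Not at hcon
    apply hx
    funext a
    rw [hxy]
    simp [hcon]
  set J : Finset (Fin (n + 1)) := Finset.univ.filter fun j => y j ≠ 0 with hJ
  rw [Set.mem_iUnion]
  refine ⟨(j0, J), x, hx, rfl, ?_⟩
  set u : Fin (n + 1) → Qbarˣ := fun j => if h : y j ≠ 0 then
    Units.mk0 (ε (y j)) ((map_ne_zero ε).2 h) else 1 with hu
  have huV : ∀ j a, (u j : Qbar) * VV J j a = ε (y j) * ε (ℓ.symm (Pi.single j 1) a) := by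
    intro j a
    by_cases h : y j ≠ 0
    · have h1 : j ∈ J := by rw [hJ, Finset.mem_filter]; exact ⟨Finset.mem_univ _, h⟩
      simp only [hu, hVV]
      rw [dif_pos h, if_pos h1, Units.val_mk0]
    · have h1 : j ∉ J := by
        rw [hJ, Finset.mem_filter]
        exact fun h2 => h h2.2
      push Not at h
      simp only [hVV]
      rw [if_neg h1, h, map_zero, zero_mul, mul_zero]
  have hsum : (fun a => ∑ j, (u j : Qbar) * VV J j a) = fun a => ε (x a) := by
    funext a
    rw [hxy a, map_sum]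
    refine Finset.sum_congr rfl fun j _ => ?_
    rw [huV, map_mul]
  have hmem : ∀ j, u j ∈ DivHull Γ' := by
    intro j
    by_cases h : y j ≠ 0
    · obtain ⟨γ, hγ, hγe⟩ := (hxΓ j).resolve_left (by rw [← hy]; exact h)
      refine ⟨1, one_pos, ?_⟩
      rw [pow_one]
      refine ⟨γ, hγ, ?_⟩
      ext
      simp only [hu]
      rw [dif_pos h, Units.val_mk0, Units.coe_map, hy, hγe]
      rfl
    · refine ⟨1, one_pos, ?_⟩
      simp only [hu]
      rw [dif_neg h, one_pow]
      exact Γ'.one_mem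
  have hlin0 : aeval (fun a => ε (x a)) (lin j0) = ε (y j0) := by
    rw [hlin, map_sum, hy, sum_single ℓ x j0, map_sum]
    refine Finset.sum_congr rfl fun a _ => ?_
    simp only [map_mul, aeval_C, aeval_X, Algebra.algebraMap_self, RingHom.id_apply]
    rw [mul_comm]
  rw [← hsum]
  refine hC (FF j0) u (u j0) 1 (VV J) ?_ hmem (hmem j0) one_ne_zero ?_ ?_ ?_
  · intro i
    refine Fin.cases ?_ (fun i => ?_) i
    · rw [hFF, hd]
      simp only [Fin.cons_zero]
      refine IsHomogeneous.sum _ _ _ fun a _ => ?_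
      have h1 := (isHomogeneous_C (Fin (n + 1)) (ε (ℓ (Pi.single a 1) j0))).mul
        (isHomogeneous_X Qbar a)
      rwa [zero_add] at h1
    · rw [hFF, hd]
      simp only [Fin.cons_succ]
      exact (he _).map _
  · intro i hi
    rw [hsum]
    refine Fin.cases (fun h => absurd rfl h) (fun i _ => ?_) i hi
    rw [hFF]
    simp only [Fin.cons_succ]
    rw [aeval_def, eval₂_map, Algebra.algebraMap_self, RingHom.id_comp]
    have h1 := MvPolynomial.eval₂_comp_left ε (RingHom.id L) x (F (eι.symm i))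
    rw [RingHom.comp_id] at h1
    change eval₂ ε (ε ∘ x) _ = 0
    rw [← h1, eval₂_id, hxF, map_zero]
  · rw [hsum, mul_one]
    have h1 : FF j0 0 = lin j0 := by
      rw [hFF]
      simp only [Fin.cons_zero]
    rw [h1, hlin0]
    simp only [hu]
    rw [dif_pos hj0, Units.val_mk0]
  · -- no curves
    intro k _ hG
    obtain ⟨hG1, -, a1, a2, hG3⟩ := hG
    set p : Fin (n + 1) → Polynomial Qbar := cur (fun j a => (u j : Qbar) * VV J j a) k with hp
    have hpa : ∀ a, p a = ∑ j, Polynomial.C (ε (y j) * ε (ℓ.symm (Pi.single j 1) a)) *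
        Polynomial.X ^ k j := by
      intro a
      rw [hp]
      unfold cur
      refine Finset.sum_congr rfl fun j _ => ?_
      change Polynomial.C ((u j : Qbar) * VV J j a) * _ = _
      rw [huV]
    have hpt : ∀ (t : ℂ) a, ((p a).map ρ).eval t =
        ∑ j, τ (ℓ.symm (Pi.single j 1) a) * (τ (y j) * t ^ k j) := by
      intro t a
      rw [hpa, Polynomial.map_sum, Polynomial.eval_finsetSum]
      refine Finset.sum_congr rfl fun j _ => ?_
      rw [Polynomial.map_mul, Polynomial.map_C, Polynomial.map_pow, Polynomial.map_X,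
        Polynomial.eval_mul, Polynomial.eval_C, Polynomial.eval_pow, Polynomial.eval_X, map_mul,
        hρ, hρ]
      ring
    have hnc : ∃ i j, τ (y i) ≠ 0 ∧ τ (y j) ≠ 0 ∧ k i ≠ k j := by
      by_contra hcon
      push Not at hcon
      apply hG3
      have h1 : ∀ a, p a = Polynomial.C (ε (x a)) * Polynomial.X ^ k j0 := by
        intro a
        rw [hpa, hxy a, map_sum, map_sum, Finset.sum_mul]
        refine Finset.sum_congr rfl fun j _ => ?_
        by_cases h : y j = 0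
        · rw [h]
          simp
        · rw [hcon j j0 ((map_ne_zero τ).2 h) ((map_ne_zero τ).2 hj0), map_mul ε, map_mul]
      rw [h1, h1]
      simp only [Polynomial.eval_mul, Polynomial.eval_C, Polynomial.eval_pow, Polynomial.eval_X,
        one_pow, mul_one]
      ring
    have hmemC : ∀ t : ℂ, t ≠ 0 → ∀ i,
        eval₂ τ (fun a => ∑ j, τ (ℓ.symm (Pi.single j 1) a) * (τ (y j) * t ^ k j)) (F i) = 0 := by
      intro t _ i
      have h1 := hG1 (Fin.succ (eι i)) (Fin.succ_ne_zero _)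
      rw [hFF] at h1
      simp only [Fin.cons_succ, Equiv.symm_apply_apply] at h1
      rw [aeval_def, eval₂_map] at h1
      have h2 := congrArg (fun f : Polynomial Qbar => (f.map ρ).eval t) h1
      simp only [Polynomial.map_zero, Polynomial.eval_zero] at h2
      have h3 := MvPolynomial.eval₂_comp_left ((Polynomial.evalRingHom t).comp
        (Polynomial.mapRingHom ρ)) ((algebraMap Qbar (Polynomial Qbar)).comp ε) p (F i)
      have h4 : ((Polynomial.evalRingHom t).comp (Polynomial.mapRingHom ρ)).comp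
          ((algebraMap Qbar (Polynomial Qbar)).comp ε) = τ := by
        refine RingHom.ext fun a => ?_
        simp [hρ]
      rw [h4] at h3
      have h5 : (((Polynomial.evalRingHom t).comp (Polynomial.mapRingHom ρ)) ∘ p) =
          fun a => ∑ j, τ (ℓ.symm (Pi.single j 1) a) * (τ (y j) * t ^ k j) := by
        funext a
        exact hpt t a
      rw [h5] at h3
      rw [← h3]
      exact h2
    have hfin := hmon (fun j => τ (y j)) k hnc hmemC 1 one_ne_zero l0
    have h6 : (fun a => ∑ j, τ (ℓ.symm (Pi.single j 1) a) * (τ (y j) * (1 : ℂ) ^ k j)) =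
        fun a => τ (x a) := by
      funext a
      rw [hxy a, map_sum]
      refine Finset.sum_congr rfl fun j _ => ?_
      rw [map_mul, one_pow]
      ring
    rw [h6] at hfin
    have h7 := MvPolynomial.eval₂_comp_left τ (RingHom.id L) x (G l0)
    rw [RingHom.comp_id] at h7
    have h8 : eval₂ τ (τ ∘ x) (G l0) = 0 := hfin
    rw [← h7, eval₂_id] at h8
    exact hl0 ((map_eq_zero τ).1 h8)

/-- embeddings of number fields -/
theorem exists_tau {K : Type} [Field K] [NumberField K] (σ : K →+* ℂ) (L : Type) [Field L]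
    [NumberField L] [Algebra K L] : ∃ τ : L →+* ℂ, τ.comp (algebraMap K L) = σ := by
  let _ : Algebra K ℂ := σ.toAlgebra
  have : Algebra.IsAlgebraic K L := by
    have := NumberField.to_finiteDimensional (K := L)
    have : IsScalarTower ℚ K L := by infer_instance
    have : FiniteDimensional K L := FiniteDimensional.right ℚ K L
    infer_instance
  let τ : L →ₐ[K] ℂ := IsAlgClosed.lift
  exact ⟨τ, RingHom.ext fun a => τ.commutes a⟩

/-- the version for forms over `K` -/
theorem a1_any {K : Type} [Field K] {ι κ : Type} [Finite ι] {n : ℕ}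
    {σ : K →+* ℂ} (F : ι → MvPolynomial (Fin (n + 1)) (𝓞 K))
    (G : κ → MvPolynomial (Fin (n + 1)) (𝓞 K)) (hF : ∀ i, ∃ e, (F i).IsHomogeneous e)
    (L : Type) [Field L] [NumberField L] [Algebra K L] (τ : L →+* ℂ)
    (hτ : τ.comp (algebraMap K L) = σ) (ℓ : (Fin (n + 1) → L) ≃ₗ[L] (Fin (n + 1) → L))
    (Γ : Subgroup Lˣ) (hΓ : Γ.FG)
    (hmon : ∀ (x : Fin (n + 1) → ℂ) (k : Fin (n + 1) → ℕ),
      (∃ i j, x i ≠ 0 ∧ x j ≠ 0 ∧ k i ≠ k j) →
      (∀ t : ℂ, t ≠ 0 → ∀ i, eval₂ (σ.comp (algebraMap (𝓞 K) K))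
        (fun a => ∑ j, τ (ℓ.symm (Pi.single j 1) a) * (x j * t ^ k j)) (F i) = 0) →
      ∀ t : ℂ, t ≠ 0 → ∀ l, eval₂ (σ.comp (algebraMap (𝓞 K) K))
        (fun a => ∑ j, τ (ℓ.symm (Pi.single j 1) a) * (x j * t ^ k j)) (G l) = 0) :
    (integralPts F G L ℓ Γ).Finite := by
  set φ : 𝓞 K →+* L := (algebraMap K L).comp (algebraMap (𝓞 K) K) with hφ
  have hφτ : τ.comp φ = σ.comp (algebraMap (𝓞 K) K) := by
    rw [hφ, ← RingHom.comp_assoc, hτ]
  have h1 := core L ι κ n τ (fun i => map φ (F i)) (fun l => map φ (G l))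
    (fun i => by
      obtain ⟨e, he⟩ := hF i
      exact ⟨e, he.map _⟩) ℓ Γ hΓ (fun x k hnc hmem t ht l => by
      rw [eval₂_map, hφτ]
      refine hmon x k hnc (fun t ht i => ?_) t ht l
      have h2 := hmem t ht i
      rwa [eval₂_map, hφτ] at h2)
  refine h1.subset ?_
  rintro P ⟨x, hx, rfl, hxF, ⟨l, hl⟩, hxΓ⟩
  refine ⟨x, hx, rfl, fun i => ?_, ⟨l, ?_⟩, hxΓ⟩
  · rw [eval_map]
    exact hxF i
  · rw [eval_map]
    exact hl

/-- coordinate hyperplanes -/
theorem a1_pt : S_A1p := by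
  intro K _ _ ι κ _ n σ F G hF _ hmon L _ _ _ Γ hΓ
  obtain ⟨τ, hτ⟩ := exists_tau σ L
  have hS : ∀ (x : Fin (n + 1) → ℂ) (k : Fin (n + 1) → ℕ) (t : ℂ), (fun a => ∑ j,
      τ ((LinearEquiv.refl L (Fin (n + 1) → L)).symm (Pi.single j 1) a) * (x j * t ^ k j)) =
      fun j => x j * t ^ k j := by
    intro x k t
    funext a
    rw [LinearEquiv.refl_symm, Finset.sum_eq_single a]
    · simp
    · intro b _ hb
      simp [Pi.single_apply, hb.symm]
    · intro h
      exact absurd (Finset.mem_univ a) h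
  refine a1_any F G hF L τ hτ (LinearEquiv.refl L _) Γ hΓ fun x k hnc hmem t ht l => ?_
  rw [hS]
  refine hmon x k hnc (fun t ht i => ?_) t ht l
  have := hmem t ht i
  rwa [hS] at this

/-- all systems of hyperplanes -/
theorem a1_all : S_A1 := by
  classical
  intro K _ _ ι κ _ n σ F G hF _ hmon L _ _ _ ℓ Γ hΓ
  obtain ⟨τ, hτ⟩ := exists_tau σ L
  set M : Matrix (Fin (n + 1)) (Fin (n + 1)) ℂ := (LinearMap.toMatrix' ℓ.symm.toLinearMap).map τ
  set M' : Matrix (Fin (n + 1)) (Fin (n + 1)) ℂ := (LinearMap.toMatrix' ℓ.toLinearMap).map τ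
  have h1 : M * M' = 1 := by
    rw [← Matrix.map_mul, ← LinearMap.toMatrix'_comp, LinearEquiv.symm_comp, LinearMap.toMatrix'_id,
      Matrix.map_one _ (map_zero τ) (map_one τ)]
  have h2 : M' * M = 1 := mul_eq_one_comm.1 h1
  let S : (Fin (n + 1) → ℂ) ≃ₗ[ℂ] (Fin (n + 1) → ℂ) :=
    LinearEquiv.ofLinearMap (Matrix.toLin' M) (Matrix.toLin' M')
      (by rw [← Matrix.toLin'_mul, h1, Matrix.toLin'_one])
      (by rw [← Matrix.toLin'_mul, h2, Matrix.toLin'_one])
  have hS : ∀ (v : Fin (n + 1) → ℂ), (fun a => ∑ j, τ (ℓ.symm (Pi.single j 1) a) * v j) =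
      S v := by
    intro v
    funext a
    change _ = Matrix.toLin' M v a
    rw [Matrix.toLin'_apply]
    unfold Matrix.mulVec dotProduct
    refine Finset.sum_congr rfl fun j _ => ?_
    congr 1
  refine a1_any F G hF L τ hτ ℓ Γ hΓ fun x k hnc hmem t ht l => ?_
  rw [hS]
  refine hmon (∑ j, k j) S x k ⟨fun j =>
    Finset.single_le_sum (f := k) (fun _ _ => Nat.zero_le _) (Finset.mem_univ j), hnc,
    fun t ht i => ?_⟩ t ht l
  have := hmem t ht i
  rwa [hS] at this

end Pool.Agent.Q72.OK
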