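import Pool.Agent.Q72.OK.Stm

set_option autoImplicit false
namespace Pool.Agent.Q72.OK
open MvPolynomial
open scoped NumberField LinearAlgebra.Projectivization

/-- **Finiteness of the integral points, coordinate hyperplanes.** -/
def S_A1p : Prop := ∀ (K : Type) [Field K] [NumberField K] (ι κ : Type) [Finite ι] (n : ℕ)
  (σ : K →+* ℂ) (F : ι → MvPolynomial (Fin (n + 1)) (𝓞 K))
  (G : κ → MvPolynomial (Fin (n + 1)) (𝓞 K)), (∀ i, ∃ e, (F i).IsHomogeneous e) →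
  (∀ l, ∃ e, (G l).IsHomogeneous e) →
  (∀ (x : Fin (n + 1) → ℂ) (k : Fin (n + 1) → ℕ), (∃ i j, x i ≠ 0 ∧ x j ≠ 0 ∧ k i ≠ k j) →
    (∀ t : ℂ, t ≠ 0 → ∀ i,
      eval₂ (σ.comp (algebraMap (𝓞 K) K)) (fun j => x j * t ^ k j) (F i) = 0) →
    ∀ t : ℂ, t ≠ 0 → ∀ l,
      eval₂ (σ.comp (algebraMap (𝓞 K) K)) (fun j => x j * t ^ k j) (G l) = 0) →
  ∀ (L : Type) [Field L] [NumberField L] [Algebra K L] (Γ : Subgroup Lˣ), Γ.FG →
    (integralPts F G L (LinearEquiv.refl L _) Γ).Finite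

end Pool.Agent.Q72.OK
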