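import Mathlib

/-!
Homogenization over a commutative ring.
-/

set_option autoImplicit false

namespace Pool.Agent.Q72.OK

open MvPolynomial

variable {R M : Type} [CommRing R] [Field M] {n : ℕ}

/-- the homogenization of a polynomial -/
noncomputable def homog (G : MvPolynomial (Fin n) R) : MvPolynomial (Fin (n + 1)) R :=
  ∑ e ∈ Finset.range (G.totalDegree + 1),
    X 0 ^ (G.totalDegree - e) * rename Fin.succ (homogeneousComponent e G)

theorem homog_homog (G : MvPolynomial (Fin n) R) : (homog G).IsHomogeneous G.totalDegree := by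
  unfold homog
  refine IsHomogeneous.sum _ _ _ fun e he => ?_
  have h1 := (isHomogeneous_X_pow (R := R) (0 : Fin (n + 1)) (G.totalDegree - e)).mul
    ((homogeneousComponent_isHomogeneous e G).rename_isHomogeneous (f := Fin.succ))
  have h2 := Finset.mem_range.1 he
  have h3 : G.totalDegree - e + e = G.totalDegree := by omega
  rw [h3] at h1
  exact h1

theorem eval_homog (φ : R →+* M) (G : MvPolynomial (Fin n) R) (v : Fin (n + 1) → M) (hv : v 0 ≠ 0) :
    eval₂ φ v (homog G) = v 0 ^ G.totalDegree * eval₂ φ (fun i => v (Fin.succ i) / v 0) G := by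
  have h1 : ∀ e ∈ Finset.range (G.totalDegree + 1),
      eval₂ φ v (X 0 ^ (G.totalDegree - e) * rename Fin.succ (homogeneousComponent e G)) =
        v 0 ^ G.totalDegree *
          eval₂ φ (fun i => v (Fin.succ i) / v 0) (homogeneousComponent e G) := by
    intro e he
    have h2 := Finset.mem_range.1 he
    rw [eval₂_mul, eval₂_pow, eval₂_X, eval₂_rename]
    have h3 : (v ∘ Fin.succ : Fin n → M) = fun i => v 0 * (v (Fin.succ i) / v 0) := by
      funext i
      rw [mul_div_cancel₀ _ hv]
      rfl
    rw [h3]
    have h4 : eval₂ φ (fun i => v 0 * (v (Fin.succ i) / v 0)) (homogeneousComponent e G) =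
        v 0 ^ e * eval₂ φ (fun i => v (Fin.succ i) / v 0) (homogeneousComponent e G) := by
      rw [eval₂_eq', eval₂_eq', Finset.mul_sum]
      refine Finset.sum_congr rfl fun α hα => ?_
      have h5 := (homogeneousComponent_isHomogeneous e G) (mem_support_iff.1 hα)
      rw [Finsupp.weight_apply, Finsupp.sum_fintype _ _ (fun _ => by simp)] at h5
      simp only [Pi.one_apply, smul_eq_mul, mul_one] at h5
      simp only [mul_pow, Finset.prod_mul_distrib]
      rw [Finset.prod_pow_eq_pow_sum, h5]
      ring
    rw [h4, ← mul_assoc, ← pow_add]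
    congr 2
    omega
  unfold homog
  rw [eval₂_sum, Finset.sum_congr rfl h1, ← Finset.mul_sum, ← eval₂_sum, sum_homogeneousComponent]

theorem eval_homog_one (φ : R →+* M) (G : MvPolynomial (Fin n) R) (x : Fin n → M) :
    eval₂ φ (Fin.cons 1 x) (homog G) = eval₂ φ x G := by
  rw [eval_homog φ G _ (by rw [Fin.cons_zero]; exact one_ne_zero)]
  simp only [Fin.cons_zero, one_pow, one_mul, Fin.cons_succ, div_one]

end Pool.Agent.Q72.OK
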