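import Pool.Agent.Q72.OK.Fin
import Pool.Agent.Q72.OK.Hom
import Pool.Agent.W235.RM.Final

/-!
Affine varieties.
-/

set_option autoImplicit false

namespace Pool.Agent.Q72.OK.Aff

open MvPolynomial
open Pool.Agent.W602.GT (IsForm)
open Pool.Agent.Q72.TR (Trunc MultGe Inv Cur Mono tfae_pt Pts CountN)
open Pool.Agent.Q72.SH (InD)
open Pool.Agent.H159R3.Exp (Laur FinitelyManyIntegral)
open Pool.Agent.W235.RM (GmCurvesIn EntireCurvesIn)
open scoped NumberField

variable {K : Type} [Field K] {ι κ : Type} {n : ℕ}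

/-- `f` is a nonconstant entire curve in `V(ℂ)`, where `V` is the affine scheme given by the
polynomials `F i` (via `σ`). -/
def Curve (σ : K →+* ℂ) (F : ι → MvPolynomial (Fin n) (𝓞 K)) (f : ℂ → Fin n → ℂ) : Prop :=
  Differentiable ℂ f ∧ (∀ z i, eval₂ (σ.comp (algebraMap (𝓞 K) K)) (f z) (F i) = 0) ∧
    ∃ z w, f z ≠ f w

/-- The curve `f` does not lie in `V'`. -/
def Off (σ : K →+* ℂ) (G : κ → MvPolynomial (Fin n) (𝓞 K)) (f : ℂ → Fin n → ℂ) : Prop :=
  ∃ z l, eval₂ (σ.comp (algebraMap (𝓞 K) K)) (f z) (G l) ≠ 0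

/-- homogeneous coordinates -/
def hat (f : ℂ → Fin n → ℂ) (z : ℂ) : Fin (n + 1) → ℂ := Fin.cons 1 (f z)

theorem hat_zero (f : ℂ → Fin n → ℂ) (z : ℂ) : hat f z 0 = 1 := rfl

theorem hat_succ (f : ℂ → Fin n → ℂ) (z : ℂ) (j : Fin n) : hat f z j.succ = f z j := rfl

variable {σ : K →+* ℂ} {F : ι → MvPolynomial (Fin n) (𝓞 K)} {G : κ → MvPolynomial (Fin n) (𝓞 K)}

/-- the forms of the closure -/
noncomputable def HF (F : ι → MvPolynomial (Fin n) (𝓞 K)) (i : ι) :
    MvPolynomial (Fin (n + 1)) (𝓞 K) := homog (F i)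

/-- the forms of `V'` and of the hyperplane at infinity -/
noncomputable def HG (G : κ → MvPolynomial (Fin n) (𝓞 K)) (l : κ) :
    MvPolynomial (Fin (n + 1)) (𝓞 K) := X 0 * homog (G l)

theorem HF_hom (i : ι) : (HF F i).IsHomogeneous (F i).totalDegree := homog_homog _

theorem HG_hom (l : κ) : (HG G l).IsHomogeneous (1 + (G l).totalDegree) :=
  (isHomogeneous_X _ _).mul (homog_homog _)

theorem eval_HG_hat (φ : 𝓞 K →+* ℂ) (x : Fin n → ℂ) (l : κ) :
    eval₂ φ (Fin.cons 1 x) (HG G l) = eval₂ φ x (G l) := by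
  unfold HG
  rw [eval₂_mul, eval₂_X, Fin.cons_zero, one_mul, eval_homog_one]

theorem cur_hat {f : ℂ → Fin n → ℂ} (h : Curve σ F f) : Cur (forms σ (HF F)) (X 0) (hat f) := by
  obtain ⟨h1, h2, z, w, hzw⟩ := h
  refine ⟨?_, fun z h0 => ?_, ?_, ⟨0, ?_⟩, z, w, fun c hc => hzw ?_⟩
  · rw [differentiable_pi] at h1 ⊢
    intro l
    refine Fin.cases ?_ (fun j => ?_) l
    · exact differentiable_const _
    · exact h1 j
  · have := congrFun h0 0
    rw [hat_zero] at this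
    exact one_ne_zero this
  · rintro z _ ⟨i, rfl⟩
    change eval (hat f z) (MvPolynomial.map _ (homog (F i))) = 0
    rw [← eval₂_eq_eval_map]
    unfold hat
    rw [eval_homog_one]
    exact h2 z i
  · rw [eval_X, hat_zero]
    exact one_ne_zero
  · have e0 := congrFun hc 0
    rw [Pi.smul_apply, hat_zero, hat_zero, smul_eq_mul, mul_one] at e0
    funext j
    have e1 := congrFun hc j.succ
    rw [Pi.smul_apply, hat_succ, hat_succ, smul_eq_mul, ← e0, one_mul] at e1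
    exact e1

theorem off_hat {f : ℂ → Fin n → ℂ} (h : Off σ G f) : ∃ z, ¬ InD (forms σ (HG G)) (hat f z) := by
  obtain ⟨z, l, hl⟩ := h
  refine ⟨z, fun hcon => hl ?_⟩
  have h1 := hcon _ ⟨l, rfl⟩
  rw [← eval₂_eq_eval_map] at h1
  unfold hat at h1
  rwa [eval_HG_hat] at h1

/-- no zeros of the constant coordinate -/
theorem trunc_iff {ε : ℝ} {ℓ : (Fin (n + 1) → ℂ) →ₗ[ℂ] (Fin (n + 1) → ℂ)} {f : ℂ → Fin n → ℂ} :
    Trunc ε ℓ (X 0) (hat f) ↔ Trunc ε ℓ 1 (hat f) := by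
  have h1 : Pts ℓ (X 0) (hat f) = Pts ℓ 1 (hat f) := by
    ext x
    unfold Pts
    simp only [Set.mem_ofPred_eq, eval_X, hat_zero, map_one]
  unfold Pool.Agent.Q72.TR.Trunc CountN
  rw [h1]

theorem mult_iff {m : ℕ} {ℓ : (Fin (n + 1) → ℂ) →ₗ[ℂ] (Fin (n + 1) → ℂ)} {f : ℂ → Fin n → ℂ} :
    MultGe m ℓ (X 0) (hat f) ↔ MultGe m ℓ 1 (hat f) := by
  unfold MultGe
  refine and_congr_right fun _ => ⟨fun _ x hx => ?_, fun _ x hx => ?_⟩
  · rw [map_one] at hx
    exact absurd hx one_ne_zero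
  · rw [eval_X, hat_zero] at hx
    exact absurd hx one_ne_zero

/-- `t ↦ (x_1 t ^ k_1, ..., x_n t ^ k_n)`, `t ≠ 0`, is a nonconstant monomial curve in `V` with
exponents of absolute value at most `B`. -/
structure MonCurve (σ : K →+* ℂ) (F : ι → MvPolynomial (Fin n) (𝓞 K)) (B : ℕ) (x : Fin n → ℂ)
    (k : Fin n → ℤ) : Prop where
  le : ∀ j, |k j| ≤ B
  nc : ∃ j, x j ≠ 0 ∧ k j ≠ 0
  mem : ∀ t : ℂ, t ≠ 0 → ∀ i,
    eval₂ (σ.comp (algebraMap (𝓞 K) K)) (fun j => x j * t ^ k j) (F i) = 0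

/-- All monomial curves in `V` with exponents of absolute value at most `B` lie in `V'`. -/
def MonIn (σ : K →+* ℂ) (F : ι → MvPolynomial (Fin n) (𝓞 K)) (G : κ → MvPolynomial (Fin n) (𝓞 K))
    (B : ℕ) : Prop :=
  ∀ x k, MonCurve σ F B x k → ∀ t : ℂ, t ≠ 0 → ∀ l,
    eval₂ (σ.comp (algebraMap (𝓞 K) K)) (fun j => x j * t ^ k j) (G l) = 0

/-- projective monomial curves -/
theorem hom_of_mon {B : ℕ} (h : MonIn σ F G B) {B' : ℕ} (hB : B' ≤ B) {x : Fin (n + 1) → ℂ}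
    {k : Fin (n + 1) → ℕ} (hle : ∀ j, k j ≤ B') (hnc : ∃ i j, x i ≠ 0 ∧ x j ≠ 0 ∧ k i ≠ k j)
    (hmem : ∀ t : ℂ, t ≠ 0 → ∀ i,
      eval₂ (σ.comp (algebraMap (𝓞 K) K)) (fun j => x j * t ^ k j) (HF F i) = 0) (t : ℂ)
    (ht : t ≠ 0) (l : κ) :
    eval₂ (σ.comp (algebraMap (𝓞 K) K)) (fun j => x j * t ^ k j) (HG G l) = 0 := by
  unfold HG
  rw [eval₂_mul, eval₂_X]
  by_cases hx0 : x 0 = 0
  · rw [hx0, zero_mul, zero_mul]
  have hq : ∀ t : ℂ, t ≠ 0 → (fun i : Fin n => (x i.succ * t ^ k i.succ) / (x 0 * t ^ k 0)) =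
      fun j : Fin n => (x j.succ / x 0) * t ^ ((k j.succ : ℤ) - k 0) := by
    intro t ht
    funext j
    rw [zpow_sub₀ ht, zpow_natCast, zpow_natCast]
    have := pow_ne_zero (k 0) ht
    field_simp
  have hM : MonCurve σ F B (fun j => x j.succ / x 0) (fun j => (k j.succ : ℤ) - k 0) := by
    refine ⟨fun j => ?_, ?_, fun t ht i => ?_⟩
    · have h1 := hle j.succ
      have h2 := hle 0
      rw [abs_le]
      constructor <;> omega
    · -- nonconstant
      by_contra hcon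
      push Not at hcon
      have h1 : ∀ j, x j ≠ 0 → k j = k 0 := by
        intro j hj
        refine Fin.cases (fun _ => rfl) (fun j hj => ?_) j hj
        have h2 := hcon j (div_ne_zero hj hx0)
        omega
      obtain ⟨i, j, hi, hj, hij⟩ := hnc
      exact hij ((h1 i hi).trans (h1 j hj).symm)
    · have h1 := hmem t ht i
      have hv : x 0 * t ^ k 0 ≠ 0 := mul_ne_zero hx0 (pow_ne_zero _ ht)
      unfold HF at h1
      rw [eval_homog _ _ _ hv] at h1
      have h2 := (mul_eq_zero.1 h1).resolve_left (pow_ne_zero _ hv)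
      rw [hq t ht] at h2
      exact h2
  have h1 := h _ _ hM t ht l
  have hv : x 0 * t ^ k 0 ≠ 0 := mul_ne_zero hx0 (pow_ne_zero _ ht)
  rw [eval_homog _ _ _ hv, hq t ht, h1, mul_zero, mul_zero]

theorem mon_of_hom {B : ℕ} (h : ∀ (x : Fin (n + 1) → ℂ) (k : Fin (n + 1) → ℕ), (∀ j, k j ≤ 2 * B) →
    (∃ i j, x i ≠ 0 ∧ x j ≠ 0 ∧ k i ≠ k j) →
    (∀ t : ℂ, t ≠ 0 → ∀ i,
      eval₂ (σ.comp (algebraMap (𝓞 K) K)) (fun j => x j * t ^ k j) (HF F i) = 0) →
    ∀ t : ℂ, t ≠ 0 → ∀ l,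
      eval₂ (σ.comp (algebraMap (𝓞 K) K)) (fun j => x j * t ^ k j) (HG G l) = 0) :
    MonIn σ F G B := by
  intro x k hM t ht l
  set x' : Fin (n + 1) → ℂ := Fin.cons 1 x with hx'
  set k' : Fin (n + 1) → ℕ := Fin.cons B fun j => (k j + B).toNat with hk'
  have hkB : ∀ j, 0 ≤ k j + B := fun j => by
    have := (abs_le.1 (hM.le j)).1
    omega
  have hv : ∀ t : ℂ, t ≠ 0 → (fun j => x' j * t ^ k' j) 0 ≠ 0 := fun t ht => by
    simp only [hx', hk', Fin.cons_zero, one_mul]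
    exact pow_ne_zero _ ht
  have hq : ∀ t : ℂ, t ≠ 0 → (fun i : Fin n => (fun j => x' j * t ^ k' j) (Fin.succ i) /
      (fun j => x' j * t ^ k' j) 0) = fun j => x j * t ^ k j := by
    intro t ht
    funext j
    simp only [hx', hk', Fin.cons_zero, Fin.cons_succ, one_mul]
    have h1 : t ^ (k j + B).toNat = t ^ (k j) * t ^ B := by
      rw [← zpow_natCast, Int.toNat_of_nonneg (hkB j), zpow_add₀ ht, zpow_natCast]
    rw [h1]
    have := pow_ne_zero B ht
    field_simp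
  have h1 := h x' k' (fun j => ?_) ?_ (fun t ht i => ?_) t ht l
  · unfold HG at h1
    rw [eval₂_mul, eval₂_X, eval_homog _ _ _ (hv t ht), hq t ht] at h1
    exact (mul_eq_zero.1 ((mul_eq_zero.1 h1).resolve_left (hv t ht))).resolve_left
      (pow_ne_zero _ (hv t ht))
  · refine Fin.cases ?_ (fun j => ?_) j
    · simp only [hk', Fin.cons_zero]
      omega
    · simp only [hk', Fin.cons_succ]
      have := (abs_le.1 (hM.le j)).2
      omega
  · obtain ⟨j, hj, hkj⟩ := hM.nc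
    refine ⟨0, j.succ, ?_, ?_, ?_⟩
    · simp only [hx', Fin.cons_zero]
      exact one_ne_zero
    · simpa only [hx', Fin.cons_succ] using hj
    · simp only [hk', Fin.cons_zero, Fin.cons_succ]
      have := hkB j
      omega
  · unfold HF
    rw [eval_homog _ _ _ (hv t ht), hq t ht, hM.mem t ht i, mul_zero]

/-- polynomials without nonzero roots -/
theorem eq_mono {P : Polynomial ℂ} (h : ∀ t, t ≠ 0 → P.eval t ≠ 0) :
    ∃ (c : ℂ) (m : ℕ), c ≠ 0 ∧ P = Polynomial.C c * Polynomial.X ^ m := by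
  have hP : P ≠ 0 := by
    rintro rfl
    exact h 1 one_ne_zero Polynomial.eval_zero
  obtain ⟨q, hq, hnd⟩ := Polynomial.exists_eq_pow_rootMultiplicity_mul_and_not_dvd P hP 0
  set m := Polynomial.rootMultiplicity 0 P
  have hq0 : q ≠ 0 := by
    rintro rfl
    exact hnd (dvd_zero _)
  have hdeg : q.degree = 0 := by
    by_contra hcon
    obtain ⟨r, hr⟩ := IsAlgClosed.exists_root q hcon
    by_cases hr0 : r = 0
    · rw [hr0] at hr
      exact hnd (Polynomial.dvd_iff_isRoot.2 hr)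
    · apply h r hr0
      rw [hq, Polynomial.eval_mul, hr.eq_zero, mul_zero]
  rw [Polynomial.eq_C_of_degree_eq_zero hdeg] at hq
  refine ⟨q.coeff 0, m, ?_, ?_⟩
  · intro h0
    apply hP
    rw [hq, h0, Polynomial.C_0, mul_zero]
  · rw [hq, Polynomial.C_0, sub_zero, mul_comm]

/-- monomial curves with respect to any linear coordinates are given by Laurent polynomials -/
theorem mon_of_gm (h : GmCurvesIn σ F G) {ℓ S : (Fin (n + 1) → ℂ) →ₗ[ℂ] (Fin (n + 1) → ℂ)}
    (hS : Inv ℓ S) (x : Fin (n + 1) → ℂ) (k : Fin (n + 1) → ℕ)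
    (hnc : ∃ i j, x i ≠ 0 ∧ x j ≠ 0 ∧ k i ≠ k j)
    (hmem : ∀ t : ℂ, t ≠ 0 → ∀ i, eval₂ (σ.comp (algebraMap (𝓞 K) K))
      (S fun j => x j * t ^ k j) (HF F i) = 0)
    (h0 : ∀ t : ℂ, t ≠ 0 → (S fun j => x j * t ^ k j) 0 ≠ 0) (t : ℂ) (ht : t ≠ 0) (l : κ) :
    eval₂ (σ.comp (algebraMap (𝓞 K) K)) (S fun j => x j * t ^ k j) (HG G l) = 0 := by
  set p : Fin (n + 1) → Polynomial ℂ := fun l =>
    ∑ a, Polynomial.C (S (Pi.single a 1) l * x a) * Polynomial.X ^ k a with hp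
  have hpe : ∀ (t : ℂ) l, (p l).eval t = (S fun a => x a * t ^ k a) l := by
    intro t l
    have h1 : (fun a => x a * t ^ k a) = ∑ a, (x a * t ^ k a) • (Pi.single a 1 : Fin (n + 1) → ℂ) := by
      funext b
      simp [Finset.sum_apply, Pi.single_apply]
    rw [h1, map_sum, hp, Finset.sum_apply, Polynomial.eval_finsetSum]
    refine Finset.sum_congr rfl fun a _ => ?_
    rw [map_smul, Pi.smul_apply, smul_eq_mul, Polynomial.eval_mul, Polynomial.eval_C,
      Polynomial.eval_pow, Polynomial.eval_X]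
    ring
  obtain ⟨c, m, hc, hcm⟩ := eq_mono (P := p 0) fun t ht => by
    rw [hpe]
    exact h0 t ht
  have h0' : ∀ t : ℂ, t ≠ 0 → (S fun j => x j * t ^ k j) 0 = c * t ^ m := by
    intro t _
    rw [← hpe, hcm, Polynomial.eval_mul, Polynomial.eval_C, Polynomial.eval_pow, Polynomial.eval_X]
  set v : ℂ → Fin n → ℂ := fun t j => (S fun j => x j * t ^ k j) j.succ /
    (S fun j => x j * t ^ k j) 0 with hv
  have hvL : ∀ j, Laur fun t => v t j := by
    intro j
    refine ⟨m, Polynomial.C c⁻¹ * p j.succ, fun t ht => ?_⟩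
    simp only [hv]
    rw [h0' t ht, Polynomial.eval_mul, Polynomial.eval_C, hpe]
    have := pow_ne_zero m ht
    field_simp
  have hvF : ∀ i t, t ≠ 0 → eval₂ (σ.comp (algebraMap (𝓞 K) K)) (v t) (F i) = 0 := by
    intro i t ht
    have h1 := hmem t ht i
    unfold HF at h1
    rw [eval_homog _ _ _ (h0 t ht)] at h1
    exact (mul_eq_zero.1 h1).resolve_left (pow_ne_zero _ (h0 t ht))
  have h1 := h v hvL hvF ?_ l t ht
  · unfold HG
    rw [eval₂_mul, eval_homog _ _ _ (h0 t ht)]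
    change _ * (_ * eval₂ (σ.comp (algebraMap (𝓞 K) K)) (v t) (G l)) = 0
    rw [h1, mul_zero, mul_zero]
  · by_contra hcon
    push Not at hcon
    have h2 := hcon 2 1 two_ne_zero one_ne_zero
    obtain ⟨i, j, hi, hj, hij⟩ := hnc
    -- proportional vectors
    set a : ℂ := (S fun j => x j * (2 : ℂ) ^ k j) 0 / (S fun j => x j * (1 : ℂ) ^ k j) 0 with ha
    have h3 : (S fun j => x j * (2 : ℂ) ^ k j) = a • S fun j => x j * (1 : ℂ) ^ k j := by
      have e0 := h0 2 two_ne_zero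
      have e1 := h0 1 one_ne_zero
      funext b
      rw [Pi.smul_apply, smul_eq_mul]
      refine Fin.cases ?_ (fun b => ?_) b
      · rw [ha, div_mul_cancel₀ _ e1]
      · have h4 := congrFun h2 b
        simp only [hv] at h4
        rw [div_eq_div_iff e0 e1] at h4
        rw [ha, div_mul_eq_mul_div, eq_div_iff e1]
        linear_combination h4
    rw [← map_smul] at h3
    have h4 := congrArg ℓ h3
    rw [hS.2, hS.2] at h4
    have h5 := congrFun h4 i
    have h6 := congrFun h4 j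
    simp only [Pi.smul_apply, smul_eq_mul, one_pow, mul_one] at h5 h6
    have h7 : (2 : ℂ) ^ k i = a := mul_left_cancel₀ hi (by rw [h5]; ring)
    have h8 : (2 : ℂ) ^ k j = a := mul_left_cancel₀ hj (by rw [h6]; ring)
    have h9 : ((2 ^ k i : ℕ) : ℂ) = ((2 ^ k j : ℕ) : ℂ) := by
      push_cast
      rw [h7, h8]
    exact hij (Nat.pow_right_injective (le_refl 2) (by exact_mod_cast h9))

/-- **The analytic equivalences, affine varieties.** -/
theorem tfae_aff (n d : ℕ) : ∃ (ε : ℝ) (B m : ℕ), 0 < ε ∧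
    ∀ (K : Type) [Field K] (σ : K →+* ℂ) (ι κ : Type) (F : ι → MvPolynomial (Fin n) (𝓞 K))
      (G : κ → MvPolynomial (Fin n) (𝓞 K)), (∀ i, (F i).totalDegree ≤ d) →
    (∀ B', B ≤ B' → List.TFAE [MonIn σ F G B',
      ∀ f, Curve σ F f → Off σ G f → Trunc ε LinearMap.id 1 (hat f),
      ∀ f, Curve σ F f → Off σ G f → ¬ MultGe m LinearMap.id 1 (hat f)]) ∧
    (∀ ℓ S : (Fin (n + 1) → ℂ) →ₗ[ℂ] (Fin (n + 1) → ℂ), Inv ℓ S →
      (∀ (x : Fin (n + 1) → ℂ) (k : Fin (n + 1) → ℕ), (∃ i j, x i ≠ 0 ∧ x j ≠ 0 ∧ k i ≠ k j) →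
        (∀ t : ℂ, t ≠ 0 → ∀ i, eval₂ (σ.comp (algebraMap (𝓞 K) K)) (S fun j => x j * t ^ k j)
          (HF F i) = 0) → (∀ t : ℂ, t ≠ 0 → (S fun j => x j * t ^ k j) 0 ≠ 0) →
        ∀ t : ℂ, t ≠ 0 → ∀ l, eval₂ (σ.comp (algebraMap (𝓞 K) K)) (S fun j => x j * t ^ k j)
          (HG G l) = 0) →
      ∀ f, Curve σ F f → Off σ G f → Trunc ε ℓ 1 (hat f) ∧ ¬ MultGe m ℓ 1 (hat f)) := by
  obtain ⟨ε, B, m, hε, hm, h⟩ := tfae_pt n (d + 1)
  refine ⟨ε, B, m, hε, ?_⟩
  intro K _ σ ι κ F G hF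
  have hQ : (X 0 : MvPolynomial (Fin (n + 1)) ℂ).IsHomogeneous 1 := isHomogeneous_X ℂ 0
  have hE : ∀ H ∈ forms σ (HF F), ∃ e ≤ d + 1, H.IsHomogeneous e := by
    rintro _ ⟨i, rfl⟩
    exact ⟨_, (hF i).trans (Nat.le_succ d), (homog_homog (F i)).map _⟩
  have hid : Inv (LinearMap.id : (Fin (n + 1) → ℂ) →ₗ[ℂ] (Fin (n + 1) → ℂ)) LinearMap.id :=
    ⟨fun _ => rfl, fun _ => rfl⟩
  have h0 := h (forms σ (HF F)) hE (X 0) 1 (by omega) hQ (forms σ (HG G)) _ _ hid B le_rfl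
  have key : ∀ ℓ S : (Fin (n + 1) → ℂ) →ₗ[ℂ] (Fin (n + 1) → ℂ), Inv ℓ S → ∀ f, Curve σ F f →
      Trunc ε ℓ 1 (hat f) → ¬ MultGe m ℓ 1 (hat f) := by
    intro ℓ S hℓ f hf hT hM
    exact Pool.Agent.Q72.TR.no_mult (by omega) hQ hℓ.1 hℓ.2 (cur_hat hf) hε (trunc_iff.2 hT) hm
      (mult_iff.2 hM)
  refine ⟨fun B' hB' => ?_, fun ℓ S hℓ hmon f hf hoff => ?_⟩
  · tfae_have 1 → 2 := by
      intro h1 f hf hoff
      have h2 : ∀ x k, Mono B (forms σ (HF F)) (X 0) LinearMap.id x k → ∀ t : ℂ, t ≠ 0 →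
          InD (forms σ (HG G)) ((LinearMap.id : (Fin (n + 1) → ℂ) →ₗ[ℂ] (Fin (n + 1) → ℂ))
            fun j => x j * t ^ k j) := by
        intro x k hM t ht
        rintro _ ⟨l, rfl⟩
        change eval (fun j => x j * t ^ k j) (MvPolynomial.map _ (HG G l)) = 0
        rw [← eval₂_eq_eval_map]
        refine hom_of_mon h1 hB' hM.le hM.nc (fun t ht i => ?_) t ht l
        have h3 := hM.mem t ht _ ⟨i, rfl⟩
        rw [← eval₂_eq_eval_map] at h3
        exact h3
      have h3 := h0.out 0 1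
      exact trunc_iff.1 (h3.1 h2 _ (cur_hat hf) (off_hat hoff))
    tfae_have 2 → 3 := fun h2 f hf hoff => key _ _ hid f hf (h2 f hf hoff)
    tfae_have 3 → 1 := by
      intro h3 x k hM t ht l
      by_contra hcon
      refine h3 (fun z j => x j * Complex.exp z ^ k j) ⟨?_, fun z i =>
        hM.mem _ (Complex.exp_ne_zero z) i, ?_⟩ ⟨Complex.log t, l, ?_⟩ ⟨fun i z hy hz => ?_,
        fun z hz => ?_⟩
      · rw [differentiable_pi]
        intro j
        refine Differentiable.const_mul ?_ _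
        have h4 : (fun z => Complex.exp z ^ k j) = fun z => Complex.exp (k j * z) := by
          funext z
          rw [Complex.exp_int_mul]
        rw [h4]
        fun_prop
      · obtain ⟨j, hj, hkj⟩ := hM.nc
        refine ⟨Complex.log 2, 0, fun hcon => ?_⟩
        have h4 := congrFun hcon j
        simp only [Complex.exp_log (by norm_num : (2 : ℂ) ≠ 0), Complex.exp_zero, one_zpow,
          mul_one] at h4
        have h5 : (2 : ℂ) ^ k j = 1 := mul_left_cancel₀ hj (by rw [h4, mul_one])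
        have h6 : ‖(2 : ℂ) ^ k j‖ = 1 := by rw [h5, norm_one]
        rw [norm_zpow, Complex.norm_ofNat] at h6
        have h7 := (zpow_right_injective₀ (a := (2 : ℝ)) (by norm_num) (by norm_num))
          (a₁ := k j) (a₂ := 0) (by simpa using h6)
        exact hkj h7
      · simp only [Complex.exp_log ht]
        exact hcon
      · rw [LinearMap.id_apply] at hz
        revert hy hz
        refine Fin.cases (fun _ hz => ?_) (fun j hy hz => ?_) i
        · rw [hat_zero] at hz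
          exact absurd hz one_ne_zero
        · exfalso
          obtain ⟨y, hy⟩ := hy
          rw [LinearMap.id_apply, hat_succ] at hy
          rw [hat_succ] at hz
          rcases mul_eq_zero.1 hz with h4 | h4
          · apply hy
            rw [h4, zero_mul]
          · exact absurd h4 (zpow_ne_zero _ (Complex.exp_ne_zero z))
      · rw [map_one] at hz
        exact absurd hz one_ne_zero
    tfae_finish
  · have h1 := h (forms σ (HF F)) hE (X 0) 1 (by omega) hQ (forms σ (HG G)) _ _ hℓ B le_rfl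
    have h0 := h1.out 0 1
    have h2 : Trunc ε ℓ (X 0) (hat f) := by
      refine h0.1 ?_ _ (cur_hat hf) (off_hat hoff)
      intro x k hM t ht
      rintro _ ⟨l, rfl⟩
      rw [← eval₂_eq_eval_map]
      refine hmon x k hM.nc (fun t ht i => ?_) (fun t ht => ?_) t ht l
      · have h3 := hM.mem t ht _ ⟨i, rfl⟩
        rw [← eval₂_eq_eval_map] at h3
        exact h3
      · have h3 := hM.off t ht
        rwa [eval_X] at h3
    exact ⟨trunc_iff.1 h2, key ℓ S hℓ f hf (trunc_iff.1 h2)⟩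

/-- The points of `V` over `L` outside `V'` whose coordinates are zero or elements of `Γ`. -/
def unitPts (F : ι → MvPolynomial (Fin n) (𝓞 K)) (G : κ → MvPolynomial (Fin n) (𝓞 K)) (L : Type)
    [Field L] [Algebra K L] (Γ : Subgroup Lˣ) : Set (Fin n → L) :=
  {x | (∀ i, eval₂ ((algebraMap K L).comp (algebraMap (𝓞 K) K)) x (F i) = 0) ∧
    (∃ l, eval₂ ((algebraMap K L).comp (algebraMap (𝓞 K) K)) x (G l) ≠ 0) ∧
    ∀ j, x j = 0 ∨ ∃ γ ∈ Γ, x j = (γ : Lˣ)}

/-- For all number fields `L` over `K` and all finitely generated groups `Γ` (for instance the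
`S`-units) only finitely many points of `V` outside `V'` have coordinates in `Γ ∪ {0}`. -/
def UnitFinite (F : ι → MvPolynomial (Fin n) (𝓞 K)) (G : κ → MvPolynomial (Fin n) (𝓞 K)) : Prop :=
  ∀ (L : Type) [Field L] [NumberField L] [Algebra K L] (Γ : Subgroup Lˣ), Γ.FG →
    (unitPts F G L Γ).Finite

theorem cons_ne {L : Type} [Field L] (y : Fin n → L) : (Fin.cons 1 y : Fin (n + 1) → L) ≠ 0 := by
  intro h
  have := congrFun h 0
  rw [Fin.cons_zero] at this
  exact one_ne_zero this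

theorem eval_HG_cons {L : Type} [Field L] (φ : 𝓞 K →+* L) (x : Fin n → L) (l : κ) :
    eval₂ φ (Fin.cons 1 x) (HG G l) = eval₂ φ x (G l) := by
  unfold HG
  rw [eval₂_mul, eval₂_X, Fin.cons_zero, one_mul, eval_homog_one]

theorem mon_of_unit [NumberField K] (h : UnitFinite F G) (B : ℕ) : MonIn σ F G B := by
  refine mon_of_hom fun x k _ hnc hmem t ht l => ?_
  refine a2_pt K ι κ n σ (HF F) (HG G) (fun L _ _ _ Γ hΓ => ?_) x k hnc hmem t ht l
  have h1 := h L Γ hΓ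
  refine (h1.image fun y => Projectivization.mk L (Fin.cons 1 y : Fin (n + 1) → L)
    (cons_ne y)).subset ?_
  rintro P ⟨x, hx, rfl, hxF, ⟨l, hl⟩, hxΓ⟩
  set φ := (algebraMap K L).comp (algebraMap (𝓞 K) K) with hφ
  unfold HG at hl
  rw [eval₂_mul, eval₂_X] at hl
  have hx0 : x 0 ≠ 0 := left_ne_zero_of_mul hl
  have hl' := right_ne_zero_of_mul hl
  rw [eval_homog _ _ _ hx0] at hl'
  refine ⟨fun j => x j.succ / x 0, ⟨fun i => ?_, ⟨l, right_ne_zero_of_mul hl'⟩, fun j => ?_⟩, ?_⟩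
  · have h2 := hxF i
    unfold HF at h2
    rw [eval_homog _ _ _ hx0] at h2
    exact (mul_eq_zero.1 h2).resolve_left (pow_ne_zero _ hx0)
  · obtain ⟨γ0, hγ0, e0⟩ : ∃ γ ∈ Γ, x 0 = (γ : Lˣ) := by
      rcases hxΓ 0 with h2 | h2
      · exact absurd h2 hx0
      · exact h2
    rcases hxΓ j.succ with h2 | ⟨γ, hγ, e⟩
    · left
      rw [LinearEquiv.refl_apply] at h2
      change x j.succ / x 0 = 0
      rw [h2, zero_div]
    · right
      rw [LinearEquiv.refl_apply] at e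
      refine ⟨γ / γ0, Γ.div_mem hγ hγ0, ?_⟩
      change x j.succ / x 0 = _
      rw [e, e0, Units.val_div_eq_div_val]
  · rw [Projectivization.mk_eq_mk_iff']
    refine ⟨(x 0)⁻¹, ?_⟩
    funext j
    rw [Pi.smul_apply, smul_eq_mul]
    refine Fin.cases ?_ (fun j => ?_) j
    · rw [Fin.cons_zero, inv_mul_cancel₀ hx0]
    · rw [Fin.cons_succ]
      ring

theorem unit_of_mon (hA : S_A1p) [NumberField K] [Finite ι] (h : ∀ B, MonIn σ F G B) :
    UnitFinite F G := by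
  intro L _ _ _ Γ hΓ
  have h1 := hA K ι κ n σ (HF F) (HG G) (fun i => ⟨_, HF_hom i⟩) (fun l => ⟨_, HG_hom l⟩)
    (fun x k hnc hmem t ht l =>
      hom_of_mon (h (∑ j, k j)) (B' := ∑ j, k j) le_rfl
        (fun j => Finset.single_le_sum (f := k) (fun _ _ => Nat.zero_le _) (Finset.mem_univ j))
        hnc hmem t ht l) L Γ hΓ
  refine Set.Finite.of_finite_image (f := fun y => Projectivization.mk L
    (Fin.cons 1 y : Fin (n + 1) → L) (cons_ne y)) (h1.subset ?_) ?_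
  · rintro _ ⟨y, ⟨hyF, ⟨l, hl⟩, hyΓ⟩, rfl⟩
    refine ⟨_, cons_ne y, rfl, fun i => ?_, ⟨l, ?_⟩, fun j => ?_⟩
    · unfold HF
      rw [eval_homog_one]
      exact hyF i
    · rw [eval_HG_cons]
      exact hl
    · rw [LinearEquiv.refl_apply]
      refine Fin.cases (Or.inr ⟨1, Γ.one_mem, ?_⟩) (fun j => ?_) j
      · rw [Fin.cons_zero, Units.val_one]
      · rw [Fin.cons_succ]
        exact hyΓ j
  · intro y _ y' _ hyy
    simp only at hyy
    rw [Projectivization.mk_eq_mk_iff'] at hyy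
    obtain ⟨a, ha⟩ := hyy
    have e0 := congrFun ha 0
    rw [Pi.smul_apply, Fin.cons_zero, Fin.cons_zero, smul_eq_mul, mul_one] at e0
    funext j
    have e1 := congrFun ha j.succ
    rw [Pi.smul_apply, Fin.cons_succ, Fin.cons_succ, smul_eq_mul, e0, one_mul] at e1
    exact e1.symm

end Pool.Agent.Q72.OK.Aff
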