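import Pool.Agent.Q72.OK.Orb

/-! Brody's theorem for compact sets and orbifold conditions. -/

set_option autoImplicit false

open Filter Topology Metric Set

namespace Pool.Agent.Q72.OK

variable {N : ℕ} {I : Type} {m : I → ℕ} {q : I → (Fin (N + 1) → ℂ) → ℂ} {U : Set ℂ}

lemma HolO.contDiffAt {φ : ℂ → Mat N} (h : HolO m q U φ) {z : ℂ} (hz : z ∈ U) :
    ContDiffAt ℝ 1 φ z := h.holP.contDiffAt hz

lemma HolO.differentiableAt {φ : ℂ → Mat N} (h : HolO m q U φ) {z : ℂ}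
    (hz : z ∈ U) : DifferentiableAt ℝ φ z := (h.contDiffAt hz).differentiableAt (by norm_num)

lemma HolO.continuousAt_fderiv {φ : ℂ → Mat N} (h : HolO m q U φ) {z : ℂ}
    (hz : z ∈ U) : ContinuousAt (fderiv ℝ φ) z :=
  ((h.contDiffAt hz).fderiv_right (m := 0) (by norm_num)).continuousAt

/-- affine maps -/
noncomputable def aff (a : ℂ) (ρ : ℝ) (z : ℂ) : ℂ := a + ρ * z

lemma aff_diff (a : ℂ) (ρ : ℝ) : Differentiable ℂ (aff a ρ) := by
  unfold aff
  fun_prop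

lemma HolO.aff (hq : HomFun q) (hU : IsOpen U) {φ : ℂ → Mat N} (h : HolO m q U φ) (a : ℂ) (ρ : ℝ) :
    HolO m q (aff a ρ ⁻¹' U) (fun z => φ (aff a ρ z)) :=
  h.comp hq (hU.preimage (aff_diff a ρ).continuous) (aff_diff a ρ).differentiableOn fun _ hz => hz

lemma norm_fderiv_aff {E : Type*} [NormedAddCommGroup E] [NormedSpace ℝ E] {Ψ : ℂ → E} {a : ℂ}
    {ρ : ℝ} (hρ : 0 ≤ ρ) {z : ℂ} (hd : DifferentiableAt ℝ Ψ (aff a ρ z)) :
    ‖fderiv ℝ (fun z => Ψ (aff a ρ z)) z‖ = ρ * ‖fderiv ℝ Ψ (aff a ρ z)‖ := by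
  have h1 : HasFDerivAt (aff a ρ) (ρ • ContinuousLinearMap.id ℝ ℂ) z := by
    have h2 : HasFDerivAt (fun z : ℂ => a + ρ • z) (ρ • ContinuousLinearMap.id ℝ ℂ) z :=
      ((hasFDerivAt_id z).const_smul ρ).const_add a
    have h3 : (fun z : ℂ => a + ρ • z) = aff a ρ := by
      funext w
      unfold aff
      rw [Complex.real_smul]
    rwa [h3] at h2
  have h2 := (hd.hasFDerivAt.comp z h1).fderiv
  have h3 : fderiv ℝ (fun z => Ψ (aff a ρ z)) z = ρ • fderiv ℝ Ψ (aff a ρ z) := by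
    change fderiv ℝ (Ψ ∘ aff a ρ) z = _
    rw [h2]
    ext v
    simp
  rw [h3, norm_smul, Real.norm_of_nonneg hρ]

/-- Brody's reparametrization -/
theorem rescale (hq : HomFun q) {S : Set (Mat N)} {Ψ : ℂ → Mat N} {M : ℝ} (hM : 0 < M)
    (hΨ : HolO m q (ball 0 1) Ψ) (hS : ∀ z ∈ ball (0 : ℂ) 1, Ψ z ∈ S)
    (hbig : 2 * M < ‖fderiv ℝ Ψ 0‖) :
    ∃ h : ℂ → Mat N, HolO m q (ball 0 M) h ∧ (∀ z ∈ ball (0 : ℂ) M, h z ∈ S) ∧
      (∀ z ∈ ball (0 : ℂ) (M / 2), ‖fderiv ℝ h z‖ ≤ 2) ∧ ‖fderiv ℝ h 0‖ = 1 := by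
  set g : ℂ → Mat N := fun z => Ψ (aff 0 (1 / 2) z) with hg
  have hsub : ball (0 : ℂ) 2 ⊆ aff 0 (1 / 2) ⁻¹' ball (0 : ℂ) 1 := by
    intro z hz
    rw [mem_preimage, mem_ball_zero_iff]
    rw [mem_ball_zero_iff] at hz
    unfold aff
    rw [zero_add, norm_mul, Complex.norm_real, Real.norm_of_nonneg (by norm_num)]
    linarith
  have hgH : HolO m q (ball 0 2) g := (hΨ.aff hq isOpen_ball 0 (1 / 2)).mono hsub
  have hgS : ∀ z ∈ ball (0 : ℂ) 2, g z ∈ S := fun z hz => hS _ (hsub hz)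
  have hg0 : ‖fderiv ℝ g 0‖ = 1 / 2 * ‖fderiv ℝ Ψ 0‖ := by
    have h1 : aff 0 (1 / 2) 0 = 0 := by simp [aff]
    have h2 := norm_fderiv_aff (Ψ := Ψ) (a := 0) (ρ := 1 / 2) (by norm_num) (z := 0) (by
      rw [h1]; exact hΨ.differentiableAt (mem_ball_self one_pos))
    rw [h1] at h2
    exact h2
  have h12 : closedBall (0 : ℂ) 1 ⊆ ball 0 2 := closedBall_subset_ball (by norm_num)
  have hcont : ContinuousOn (fun z => (1 - ‖z‖) * ‖fderiv ℝ g z‖) (closedBall (0 : ℂ) 1) := by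
    intro z hz
    apply ContinuousAt.continuousWithinAt
    exact (continuousAt_const.sub continuousAt_id.norm).mul
      (hgH.continuousAt_fderiv (h12 hz)).norm
  obtain ⟨z0, hz0, hmax⟩ := (isCompact_closedBall (0 : ℂ) 1).exists_isMaxOn
    ⟨0, mem_closedBall_self zero_le_one⟩ hcont
  have hmax' : ∀ z ∈ closedBall (0 : ℂ) 1, (1 - ‖z‖) * ‖fderiv ℝ g z‖ ≤
      (1 - ‖z0‖) * ‖fderiv ℝ g z0‖ := fun z hz => hmax hz
  set D := ‖fderiv ℝ g z0‖ with hD
  have h0 : M < (1 - ‖z0‖) * D := by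
    have := hmax' 0 (mem_closedBall_self zero_le_one)
    rw [norm_zero, sub_zero, one_mul, hg0] at this
    linarith
  have hz0n : ‖z0‖ ≤ 1 := mem_closedBall_zero_iff.1 hz0
  have hDnn : 0 ≤ D := norm_nonneg _
  have hz0lt : 0 < 1 - ‖z0‖ := by
    by_contra hcon
    push Not at hcon
    have := mul_nonpos_of_nonpos_of_nonneg hcon hDnn
    linarith
  have hDpos : 0 < D := by
    by_contra hcon
    push Not at hcon
    have : D = 0 := le_antisymm hcon hDnn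
    rw [this] at h0
    linarith
  set ρ := 1 / D with hρ
  have hρpos : 0 < ρ := by positivity
  have hρD : ρ * D = 1 := by rw [hρ]; field_simp
  have hρM : ρ * M < 1 - ‖z0‖ := by
    have := mul_lt_mul_of_pos_left h0 hρpos
    calc ρ * M < ρ * ((1 - ‖z0‖) * D) := this
      _ = (1 - ‖z0‖) * (ρ * D) := by ring
      _ = 1 - ‖z0‖ := by rw [hρD, mul_one]
  have hnorm : ∀ z : ℂ, ‖aff z0 ρ z‖ ≤ ‖z0‖ + ρ * ‖z‖ := by
    intro z
    unfold aff
    refine (norm_add_le _ _).trans ?_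
    rw [norm_mul, Complex.norm_real, Real.norm_of_nonneg hρpos.le]
  have hball : ball (0 : ℂ) M ⊆ aff z0 ρ ⁻¹' ball (0 : ℂ) 2 := by
    intro z hz
    rw [mem_ball_zero_iff] at hz
    rw [mem_preimage, mem_ball_zero_iff]
    have := hnorm z
    have h1 : ρ * ‖z‖ < ρ * M := mul_lt_mul_of_pos_left hz hρpos
    linarith
  have hderiv : ∀ z ∈ ball (0 : ℂ) M, ‖fderiv ℝ (fun z => g (aff z0 ρ z)) z‖ =
      ρ * ‖fderiv ℝ g (aff z0 ρ z)‖ := fun z hz =>
    norm_fderiv_aff hρpos.le (hgH.differentiableAt (hball hz))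
  refine ⟨fun z => g (aff z0 ρ z), (hgH.aff hq isOpen_ball z0 ρ).mono hball, fun z hz => hgS _ (hball hz),
    fun z hz => ?_, ?_⟩
  · have hz' : ‖z‖ < M / 2 := mem_ball_zero_iff.1 hz
    rw [hderiv z (ball_subset_ball (by linarith) hz)]
    have h1 := hnorm z
    have h2 : ρ * ‖z‖ < ρ * (M / 2) := mul_lt_mul_of_pos_left hz' hρpos
    have h3 : (1 - ‖z0‖) / 2 ≤ 1 - ‖aff z0 ρ z‖ := by linarith
    have h4 := hmax' (aff z0 ρ z) (mem_closedBall_zero_iff.2 (by linarith))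
    have h5 : (1 - ‖z0‖) / 2 * ‖fderiv ℝ g (aff z0 ρ z)‖ ≤ (1 - ‖z0‖) * D :=
      (mul_le_mul_of_nonneg_right h3 (norm_nonneg _)).trans h4
    have h6 : ‖fderiv ℝ g (aff z0 ρ z)‖ ≤ 2 * D := by
      by_contra hcon
      push Not at hcon
      have := mul_lt_mul_of_pos_left hcon (half_pos hz0lt)
      linarith
    calc ρ * ‖fderiv ℝ g (aff z0 ρ z)‖ ≤ ρ * (2 * D) := mul_le_mul_of_nonneg_left h6 hρpos.le
      _ = 2 * (ρ * D) := by ring
      _ = 2 := by rw [hρD, mul_one]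
  · rw [hderiv 0 (mem_ball_self hM)]
    have : aff z0 ρ 0 = z0 := by simp [aff]
    rw [this]
    exact hρD

/-- Brody's theorem: if every entire curve is constant then the derivatives of the discs at the
centre are bounded. -/
theorem brody (hH : S_H) (hq : HomFun q) {S : Set (Mat N)} (hS : IsCompact S) (hPM : S ⊆ PM)
    (hconst : ∀ Ψ, HolO m q univ Ψ → (∀ z, Ψ z ∈ S) → ∀ z, Ψ z = Ψ 0) :
    ∃ C : ℝ, 0 < C ∧ ∀ Ψ, HolO m q (ball 0 1) Ψ → (∀ z ∈ ball (0 : ℂ) 1, Ψ z ∈ S) →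
      ‖fderiv ℝ Ψ 0‖ ≤ C := by
  by_contra hcon
  push Not at hcon
  have h1 : ∀ n : ℕ, ∃ h : ℂ → Mat N, HolO m q (ball 0 (n + 1 : ℝ)) h ∧
      (∀ z ∈ ball (0 : ℂ) (n + 1 : ℝ), h z ∈ S) ∧
      (∀ z ∈ ball (0 : ℂ) ((n + 1 : ℝ) / 2), ‖fderiv ℝ h z‖ ≤ 2) ∧ ‖fderiv ℝ h 0‖ = 1 := by
    intro n
    obtain ⟨Ψ, hΨ, hΨS, hbig⟩ := hcon (2 * (n + 1)) (by positivity)
    exact rescale hq (by positivity) hΨ hΨS hbig
  choose h hH' hHS hHd hH0 using h1
  set 𝓤 : Ultrafilter ℕ := hyperfilter ℕ with h𝓤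
  have hcof : ∀ R : ℝ, ∀ᶠ n : ℕ in (𝓤 : Filter ℕ), R ≤ n := by
    intro R
    have h2 : ∀ᶠ n : ℕ in atTop, R ≤ n := by
      filter_upwards [eventually_ge_atTop ⌈R⌉₊] with n hn
      exact (Nat.le_ceil R).trans (by exact_mod_cast hn)
    have h3 : (𝓤 : Filter ℕ) ≤ atTop := by
      rw [← Nat.cofinite_eq_atTop]
      exact hyperfilter_le_cofinite
    exact h3 h2
  have hlim : ∀ z : ℂ, ∃ y ∈ S, Tendsto (fun n => h n z) 𝓤 (𝓝 y) := by
    intro z
    have h2 : ∀ᶠ n in (𝓤 : Filter ℕ), h n z ∈ S := by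
      filter_upwards [hcof ‖z‖] with n hn
      exact hHS n z (mem_ball_zero_iff.2 (by linarith))
    have h3 := hS.ultrafilter_le_nhds (𝓤.map (fun n => h n z)) (by
      rw [le_principal_iff]; exact h2)
    exact h3
  choose H hHmem hHt using hlim
  have hCC : ∀ R : ℝ, 0 < R → CConv (𝓤 : Filter ℕ) (ball 0 R) h H := by
    intro R hR z hz
    rw [Metric.tendsto_nhds]
    intro ε hε
    have h2 := Metric.tendsto_nhds.1 (hHt z) (ε / 2) (by positivity)
    have h3 := hcof (2 * R)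
    rw [eventually_prod_iff]
    refine ⟨_, h2.and h3, fun w => w ∈ ball (0 : ℂ) R ∧ dist w z < ε / 4, ?_, ?_⟩
    · have h4 : ∀ᶠ w in 𝓝 z, w ∈ ball (0 : ℂ) R := isOpen_ball.mem_nhds hz
      have h5 : ∀ᶠ w in 𝓝 z, dist w z < ε / 4 := ball_mem_nhds z (by positivity)
      exact h4.and h5
    · rintro n ⟨hn1, hn2⟩ w ⟨hw1, hw2⟩
      have h6 : ‖h n w - h n z‖ ≤ 2 * ‖w - z‖ := by
        have hsub : ball (0 : ℂ) R ⊆ ball (0 : ℂ) ((n + 1 : ℝ) / 2) :=
          ball_subset_ball (by linarith)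
        have hsub2 : ball (0 : ℂ) R ⊆ ball (0 : ℂ) (n + 1 : ℝ) :=
          ball_subset_ball (by linarith)
        exact (convex_ball (0 : ℂ) R).norm_image_sub_le_of_norm_fderiv_le
          (fun x hx => (hH' n).differentiableAt (hsub2 hx))
          (fun x hx => hHd n x (hsub hx)) hz hw1
      calc dist (h n w) (H z) ≤ dist (h n w) (h n z) + dist (h n z) (H z) := dist_triangle _ _ _
        _ < ε / 2 + ε / 2 := by
            refine add_lt_add ?_ hn1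
            rw [dist_eq_norm]
            rw [dist_eq_norm] at hw2
            linarith
        _ = ε := by ring
  have hev : ∀ R : ℝ, 0 < R → ∀ᶠ n in (𝓤 : Filter ℕ), HolO m q (ball 0 R) (h n) := by
    intro R _
    filter_upwards [hcof R] with n hn
    exact (hH' n).mono (ball_subset_ball (by linarith))
  have hl := fun (R : ℝ) (hR : 0 < R) => holP_limit isOpen_ball (hCC R hR)
    ((hev R hR).mono fun n hn => hn.holP) (fun z _ => hPM (hHmem z))
  have hlo := fun (R : ℝ) (hR : 0 < R) => holO_limit hH hq isOpen_ball (hCC R hR)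
    (hev R hR) (fun z _ => hPM (hHmem z))
  have hHol : HolO m q univ H := by
    intro z _
    exact (hlo (‖z‖ + 1) (by positivity)) z (mem_ball_zero_iff.2 (by linarith))
  have hc := hconst H hHol hHmem
  have hc1 : fderiv ℝ H 0 = 0 := by
    have : H = fun _ => H 0 := funext fun z => by rw [hc z]
    rw [this]; simp
  have ht1 := (hl 1 one_pos).2 0 (mem_ball_self one_pos)
  rw [hc1] at ht1
  have e1 := (ht1.norm).eventually_lt_const (u := 1) (by simp)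
  obtain ⟨n, hn1⟩ := e1.exists
  have h8 := hH0 n
  linarith

end Pool.Agent.Q72.OK
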