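import Mathlib

/-!
Orbifold pairs of a projective variety over a number field and systems of `n + 1` hyperplanes:
integral points, monomial curves, orbifold discs and the Kobayashi pseudodistance.
-/

set_option autoImplicit false

namespace Pool.Agent.Q72.OK

open MvPolynomial Metric
open scoped NumberField LinearAlgebra.Projectivization

section arith

variable {K : Type} [Field K] {ι κ : Type} {n : ℕ}

/-- The points `P` of the projective variety `V` over `L` that do not lie in `V'` and are integral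
with respect to the hyperplanes `ℓ i = 0` and the group `Γ`: there are homogeneous coordinates `x`
of `P` for which every `ℓ x i` is zero or an element of `Γ`. Here `V` is given by the forms `F i`
and `V'` by the forms `G l`. -/
def integralPts (F : ι → MvPolynomial (Fin (n + 1)) (𝓞 K))
    (G : κ → MvPolynomial (Fin (n + 1)) (𝓞 K)) (L : Type) [Field L] [Algebra K L]
    (ℓ : (Fin (n + 1) → L) ≃ₗ[L] (Fin (n + 1) → L)) (Γ : Subgroup Lˣ) :
    Set (ℙ L (Fin (n + 1) → L)) :=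
  {P | ∃ (x : Fin (n + 1) → L) (h : x ≠ 0), P = Projectivization.mk L x h ∧
    (∀ i, eval₂ ((algebraMap K L).comp (algebraMap (𝓞 K) K)) x (F i) = 0) ∧
    (∃ l, eval₂ ((algebraMap K L).comp (algebraMap (𝓞 K) K)) x (G l) ≠ 0) ∧
    ∀ i, ℓ x i = 0 ∨ ∃ γ ∈ Γ, ℓ x i = (γ : Lˣ)}

/-- For all number fields `L` over `K`, all systems of `n + 1` hyperplanes over `L` without common
point and all finitely generated groups `Γ` (for instance the `S`-units), the integral points of `V`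
outside of `V'` are finite in number. -/
def IntegralFinite (F : ι → MvPolynomial (Fin (n + 1)) (𝓞 K))
    (G : κ → MvPolynomial (Fin (n + 1)) (𝓞 K)) : Prop :=
  ∀ (L : Type) [Field L] [NumberField L] [Algebra K L]
    (ℓ : (Fin (n + 1) → L) ≃ₗ[L] (Fin (n + 1) → L)) (Γ : Subgroup Lˣ), Γ.FG →
    (integralPts F G L ℓ Γ).Finite

/-- `t ↦ S (x_0 t ^ k_0, ..., x_n t ^ k_n)`, `t ≠ 0`, is a nonconstant monomial curve of degree at
most `B` in the variety `V` over `ℂ` (via `σ`). -/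
structure MonCurve (σ : K →+* ℂ) (F : ι → MvPolynomial (Fin (n + 1)) (𝓞 K)) (B : ℕ)
    (S : (Fin (n + 1) → ℂ) ≃ₗ[ℂ] (Fin (n + 1) → ℂ)) (x : Fin (n + 1) → ℂ) (k : Fin (n + 1) → ℕ) :
    Prop where
  le : ∀ j, k j ≤ B
  nc : ∃ i j, x i ≠ 0 ∧ x j ≠ 0 ∧ k i ≠ k j
  mem : ∀ t : ℂ, t ≠ 0 → ∀ i,
    eval₂ (σ.comp (algebraMap (𝓞 K) K)) (S fun j => x j * t ^ k j) (F i) = 0

/-- All monomial curves of degree at most `B` in `V` lie in `V'`. -/
def MonCurvesIn (σ : K →+* ℂ) (F : ι → MvPolynomial (Fin (n + 1)) (𝓞 K))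
    (G : κ → MvPolynomial (Fin (n + 1)) (𝓞 K)) (B : ℕ) : Prop :=
  ∀ (S : (Fin (n + 1) → ℂ) ≃ₗ[ℂ] (Fin (n + 1) → ℂ)) (x : Fin (n + 1) → ℂ) (k : Fin (n + 1) → ℕ),
    MonCurve σ F B S x k → ∀ t : ℂ, t ≠ 0 → ∀ l,
      eval₂ (σ.comp (algebraMap (𝓞 K) K)) (S fun j => x j * t ^ k j) (G l) = 0

end arith

section hyp

variable {n : ℕ}

/-- `f` is a holomorphic map from the open set `U` to `P^n` that meets each of the hyperplanes
`ℓ i = 0` only with multiplicities at least `m` (it may also lie in the hyperplane). -/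
def OrbifoldOn (m : ℕ) (ℓ : (Fin (n + 1) → ℂ) ≃ₗ[ℂ] (Fin (n + 1) → ℂ)) (U : Set ℂ)
    (f : ℂ → ℙ ℂ (Fin (n + 1) → ℂ)) : Prop :=
  ∀ z ∈ U, ∃ (W : Set ℂ) (x : ℂ → Fin (n + 1) → ℂ), IsOpen W ∧ z ∈ W ∧ DifferentiableOn ℂ x W ∧
    (∀ w ∈ W, ∃ h : x w ≠ 0, f w = Projectivization.mk ℂ (x w) h) ∧
    ∀ w ∈ W, ∀ i, ℓ (x w) i = 0 → (m : ℕ∞) ≤ analyticOrderAt (fun u => ℓ (x u) i) w

/-- The Poincaré distance of two points of the unit disc (curvature `-1`). -/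
noncomputable def poincareDist (s t : ℂ) : ℝ :=
  Real.log ((1 + ‖s - t‖ / ‖1 - (starRingEnd ℂ) s * t‖) /
    (1 - ‖s - t‖ / ‖1 - (starRingEnd ℂ) s * t‖))

/-- `c` is the total Poincaré length of a chain of orbifold discs in `X` from `p` to `q`. -/
def IsChainLength (m : ℕ) (ℓ : (Fin (n + 1) → ℂ) ≃ₗ[ℂ] (Fin (n + 1) → ℂ))
    (X : Set (ℙ ℂ (Fin (n + 1) → ℂ))) (p q : ℙ ℂ (Fin (n + 1) → ℂ)) (c : ℝ) : Prop :=
  ∃ (k : ℕ) (r : Fin (k + 1) → ℙ ℂ (Fin (n + 1) → ℂ)) (f : Fin k → ℂ → ℙ ℂ (Fin (n + 1) → ℂ))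
    (s t : Fin k → ℂ),
    r 0 = p ∧ r (Fin.last k) = q ∧
    (∀ i : Fin k, OrbifoldOn m ℓ (ball 0 1) (f i) ∧ (∀ z ∈ ball (0 : ℂ) 1, f i z ∈ X) ∧
      s i ∈ ball (0 : ℂ) 1 ∧ t i ∈ ball (0 : ℂ) 1 ∧
      f i (s i) = r i.castSucc ∧ f i (t i) = r i.succ) ∧
    c = ∑ i : Fin k, poincareDist (s i) (t i)

/-- The Kobayashi pseudodistance of the orbifold pair `(X, (1 - 1/m) ∑ (ℓ i = 0))`: the infimum of
the lengths of the chains of orbifold discs in `X` that join the two points. -/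
noncomputable def kobayashi (m : ℕ) (ℓ : (Fin (n + 1) → ℂ) ≃ₗ[ℂ] (Fin (n + 1) → ℂ))
    (X : Set (ℙ ℂ (Fin (n + 1) → ℂ))) (p q : ℙ ℂ (Fin (n + 1) → ℂ)) : ENNReal :=
  ⨅ (c : ℝ) (_ : IsChainLength m ℓ X p q c), ENNReal.ofReal c

/-- The orbifold pair `(X, (1 - 1/m) ∑ (ℓ i = 0))` is Kobayashi hyperbolic: the pseudodistance
separates the points of `X`. -/
def Hyperbolic (m : ℕ) (ℓ : (Fin (n + 1) → ℂ) ≃ₗ[ℂ] (Fin (n + 1) → ℂ))
    (X : Set (ℙ ℂ (Fin (n + 1) → ℂ))) : Prop :=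
  ∀ p ∈ X, ∀ q ∈ X, p ≠ q → 0 < kobayashi m ℓ X p q

/-- The complex points of the projective set given by the forms in `E`. -/
def zeroSet (E : Set (MvPolynomial (Fin (n + 1)) ℂ)) : Set (ℙ ℂ (Fin (n + 1) → ℂ)) :=
  {p | ∀ F ∈ E, eval p.rep F = 0}

end hyp

end Pool.Agent.Q72.OK
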