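import Pool.Agent.Q72.TR.App2

/-!
The equivalences for one system of hyperplanes.
-/

set_option autoImplicit false

namespace Pool.Agent.Q72.TR

open Filter Metric Real Set Topology
open MvPolynomial MeasureTheory
open Pool.Agent.TH143.GT Pool.Agent.W602.GT Pool.Agent.TH143
open Pool.Agent.Q72.SH (InD)

variable {n d : ℕ} {E : Set (MvPolynomial (Fin (n + 1)) ℂ)} {Q : MvPolynomial (Fin (n + 1)) ℂ}
  {f : ℂ → Fin (n + 1) → ℂ}

/-- **Equivalences for one system.** -/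
theorem tfae_pt (n d : ℕ) : ∃ (ε : ℝ) (B m : ℕ), 0 < ε ∧ (n : ℝ) + 2 + d < ε * m ∧
    ∀ (E : Set (MvPolynomial (Fin (n + 1)) ℂ)), (∀ F ∈ E, ∃ e ≤ d, F.IsHomogeneous e) →
    ∀ (Q : MvPolynomial (Fin (n + 1)) ℂ) (q : ℕ), q ≤ d → Q.IsHomogeneous q →
    ∀ J : Set (MvPolynomial (Fin (n + 1)) ℂ), ∀ ℓ S, Inv ℓ S → ∀ B', B ≤ B' →
    List.TFAE [∀ x k, Mono B' E Q S x k → ∀ t : ℂ, t ≠ 0 → InD J (S fun j => x j * t ^ k j),
      ∀ f, Cur E Q f → (∃ z, ¬ InD J (f z)) → Trunc ε ℓ Q f,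
      ∀ f, Cur E Q f → (∃ z, ¬ InD J (f z)) → ¬ MultGe m ℓ Q f] := by
  obtain ⟨ε, hε, h⟩ := trunc_or n d
  obtain ⟨B, hB⟩ := exists_bdw n d
  obtain ⟨m, hm⟩ := exists_mult n d hε
  refine ⟨ε, 2 * B, m, hε, hm, ?_⟩
  intro E hE Q q hq hQ J ℓ S hℓ B' hB'
  tfae_have 1 → 2 := by
    rintro h1 f hf ⟨z, hz⟩
    by_contra hT
    rcases h E hE Q q hq hQ ℓ S hℓ.1 f hf with hw | hw
    · obtain ⟨nn, hnn1, i, j, hi, hj, hnij, hmm⟩ := orb_data hq hQ hE hB hℓ.1 hw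
      apply hz
      intro G hG
      refine zero_gen hℓ.1 hf hi hj (fun z hzi hzj hzQ => ?_) z
      obtain ⟨h3, h2⟩ := hmm z
      obtain ⟨m, hm⟩ := h2 hzQ
      have hM : Mono B' E Q S (ℓ (f z)) nn := by
        refine ⟨⟨ℓ, hℓ⟩, fun j => (hnn1 j).trans hB', ⟨i, j, hzi, hzj, hnij⟩, fun t ht F hF => ?_,
          fun t ht => ?_⟩
        · rw [← mon_eval, ← eval_aeval_poly, h3 F hF, Polynomial.eval_zero]
        · rw [← mon_eval, ← eval_aeval_poly, hm]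
          simp [hzQ, ht]
      have h4 := h1 (ℓ (f z)) nn hM 1 one_ne_zero G hG
      simp only [one_pow, mul_one] at h4
      rw [show (fun j => ℓ (f z) j) = ℓ (f z) from rfl, hℓ.1] at h4
      exact h4
    · exact hT hw
  tfae_have 2 → 3 := by
    intro h2 f hf hz
    exact no_mult hq hQ hℓ.1 hℓ.2 hf hε (h2 f hf hz) hm
  tfae_have 3 → 1 := by
    intro h3 x k hM t ht
    by_contra hcon
    obtain ⟨h4, h5⟩ := hM.curve hℓ
    refine h3 _ h4 ⟨Complex.log t, by simpa only [Complex.exp_log ht] using hcon⟩ ?_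
    rw [Set.eq_empty_iff_forall_notMem] at h5
    exact ⟨fun i x hy hx => absurd (Or.inl ⟨i, hy, hx⟩) (h5 x), fun x hx => absurd (Or.inr hx) (h5 x)⟩
  tfae_finish

end Pool.Agent.Q72.TR
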