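import Pool.Agent.Q72.OK.Main
import Pool.Agent.Q72.OK.Pt
import Pool.Agent.Q72.OK.A1s
import Pool.Agent.Q72.OK.A2p
import Pool.Agent.Q128.OK.W
import Pool.Agent.Q14.OK.R
import Pool.Agent.Q185.OK.H
import Pool.Agent.W235.PR.Final
import Pool.Agent.Q72.SH.RigP

/-!
Assembly: orbifold pairs over number fields.
-/

set_option autoImplicit false

namespace Pool.Agent.Q72.OK

open MvPolynomial
open Pool.Agent.W602.GT (IsForm)
open Pool.Agent.Q72.TR (Trunc MultGe Inv Cur Mono tfae_pt)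
open Pool.Agent.W235.PR (RatCurvesIn RationalFinite rec_of_rational tfae)
open Pool.Agent.Q72.SH (InD)
open scoped NumberField LinearAlgebra.Projectivization

variable {K : Type} [Field K] {ι : Type} {n : ℕ}

/-- `f` gives homogeneous coordinates of a nonconstant entire curve in the projective variety `V`
over `ℂ` that is given by the forms `F i` (via `σ`). -/
def Curve (σ : K →+* ℂ) (F : ι → MvPolynomial (Fin (n + 1)) (𝓞 K)) (f : ℂ → Fin (n + 1) → ℂ) :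
    Prop :=
  Differentiable ℂ f ∧ (∀ z, f z ≠ 0) ∧
    (∀ z i, eval₂ (σ.comp (algebraMap (𝓞 K) K)) (f z) (F i) = 0) ∧
    ∃ z w, ∀ c : ℂ, f z ≠ c • f w

/-- the complex points of `V` -/
def points (σ : K →+* ℂ) (F : ι → MvPolynomial (Fin (n + 1)) (𝓞 K)) :
    Set (ℙ ℂ (Fin (n + 1) → ℂ)) :=
  {p | ∀ i, eval₂ (σ.comp (algebraMap (𝓞 K) K)) p.rep (F i) = 0}

/-- the forms over `ℂ` -/
def forms (σ : K →+* ℂ) (F : ι → MvPolynomial (Fin (n + 1)) (𝓞 K)) :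
    Set (MvPolynomial (Fin (n + 1)) ℂ) :=
  Set.range fun i => MvPolynomial.map (σ.comp (algebraMap (𝓞 K) K)) (F i)

variable {σ : K →+* ℂ} {F : ι → MvPolynomial (Fin (n + 1)) (𝓞 K)}

theorem cur_iff {f : ℂ → Fin (n + 1) → ℂ} : Curve σ F f ↔ Cur (forms σ F) 1 f := by
  constructor
  · rintro ⟨h1, h2, h3, h4⟩
    refine ⟨h1, h2, ?_, ⟨0, by rw [map_one]; exact one_ne_zero⟩, h4⟩
    rintro z _ ⟨i, rfl⟩
    change eval (f z) (MvPolynomial.map _ (F i)) = 0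
    rw [← eval₂_eq_eval_map]
    exact h3 z i
  · rintro ⟨h1, h2, h3, -, h4⟩
    refine ⟨h1, h2, fun z i => ?_, h4⟩
    rw [eval₂_eq_eval_map]
    exact h3 z _ ⟨i, rfl⟩

theorem points_eq : points σ F = zeroSet (forms σ F) := by
  ext p
  constructor
  · rintro h _ ⟨i, rfl⟩
    change eval p.rep (MvPolynomial.map _ (F i)) = 0
    rw [← eval₂_eq_eval_map]
    exact h i
  · intro h i
    rw [eval₂_eq_eval_map]
    exact h _ ⟨i, rfl⟩

theorem inv_equiv (ℓ : (Fin (n + 1) → ℂ) ≃ₗ[ℂ] (Fin (n + 1) → ℂ)) :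
    Inv (ℓ : (Fin (n + 1) → ℂ) →ₗ[ℂ] (Fin (n + 1) → ℂ))
      (ℓ.symm : (Fin (n + 1) → ℂ) →ₗ[ℂ] (Fin (n + 1) → ℂ)) :=
  ⟨fun x => ℓ.symm_apply_apply x, fun x => ℓ.apply_symm_apply x⟩

/-- **The analytic equivalences for one system of hyperplanes over `ℂ`.** -/
theorem tfae_hyp (n d : ℕ) : ∃ (ε : ℝ) (B m : ℕ), 0 < ε ∧
    ∀ (E : Set (MvPolynomial (Fin (n + 1)) ℂ)), (∀ F ∈ E, ∃ e ≤ d, F.IsHomogeneous e) →
    ∀ (ℓ : (Fin (n + 1) → ℂ) ≃ₗ[ℂ] (Fin (n + 1) → ℂ)) (B' : ℕ), B ≤ B' →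
    List.TFAE [∀ x k, ¬ Mono B' E 1 (ℓ.symm : (Fin (n + 1) → ℂ) →ₗ[ℂ] (Fin (n + 1) → ℂ)) x k,
      ∀ f, Cur E 1 f → Trunc ε (ℓ : (Fin (n + 1) → ℂ) →ₗ[ℂ] (Fin (n + 1) → ℂ)) 1 f,
      ∀ f, Cur E 1 f → ¬ MultGe m (ℓ : (Fin (n + 1) → ℂ) →ₗ[ℂ] (Fin (n + 1) → ℂ)) 1 f,
      Hyperbolic m ℓ (zeroSet E)] := by
  obtain ⟨ε, B, m, hε, -, h⟩ := tfae_pt n d
  refine ⟨ε, B, m, hε, fun E hE ℓ B' hB' => ?_⟩
  have h1 := h E hE 1 0 (Nat.zero_le d) (isHomogeneous_one _ _) {1} _ _ (inv_equiv ℓ) B' hB'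
  have hin : ∀ v : Fin (n + 1) → ℂ, ¬ InD ({1} : Set (MvPolynomial (Fin (n + 1)) ℂ)) v :=
    fun v => Pool.Agent.Q72.TR.not_inD_one v
  have hE' : ∀ F ∈ E, ∃ e, F.IsHomogeneous e := fun F hF => by
    obtain ⟨e, -, he⟩ := hE F hF
    exact ⟨e, he⟩
  have e12 := h1.out 0 1
  have e13 := h1.out 0 2
  have a1 : (∀ x k, ¬ Mono B' E 1 (ℓ.symm : (Fin (n + 1) → ℂ) →ₗ[ℂ] (Fin (n + 1) → ℂ)) x k) ↔
      ∀ x k, Mono B' E 1 (ℓ.symm : (Fin (n + 1) → ℂ) →ₗ[ℂ] (Fin (n + 1) → ℂ)) x k →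
        ∀ t : ℂ, t ≠ 0 → InD {1} ((ℓ.symm : (Fin (n + 1) → ℂ) →ₗ[ℂ] (Fin (n + 1) → ℂ))
          fun j => x j * t ^ k j) :=
    ⟨fun h x k hM => absurd hM (h x k), fun h x k hM => hin _ (h x k hM 1 one_ne_zero)⟩
  tfae_have 1 ↔ 2 := by
    rw [a1, e12]
    exact ⟨fun h f hf => h f hf ⟨0, hin _⟩, fun h f hf _ => h f hf⟩
  tfae_have 1 ↔ 3 := by
    rw [a1, e13]
    exact ⟨fun h f hf => h f hf ⟨0, hin _⟩, fun h f hf _ => h f hf⟩
  tfae_have 3 → 4 := by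
    intro h3
    obtain ⟨c, hc, hcd⟩ := hyperbolic_of (Pool.Agent.Q14.OK.job_r Pool.Agent.Q128.OK.job_w)
      Pool.Agent.Q185.OK.job_h ℓ hE' h3
    exact hyperbolic_iff_pos hc hcd
  tfae_have 4 → 3 := fun h4 f hf hm => no_curve_of_hyperbolic hE' h4 hf hm
  tfae_finish

theorem forms_deg {d : ℕ} (hF : ∀ i, ∃ e ≤ d, (F i).IsHomogeneous e) :
    ∀ H ∈ forms σ F, ∃ e ≤ d, H.IsHomogeneous e := by
  rintro _ ⟨i, rfl⟩
  obtain ⟨e, he, hFe⟩ := hF i
  exact ⟨e, he, hFe.map _⟩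

/-- monomial curves -/
theorem mono_iff (B : ℕ) (S : (Fin (n + 1) → ℂ) ≃ₗ[ℂ] (Fin (n + 1) → ℂ)) (x : Fin (n + 1) → ℂ)
    (k : Fin (n + 1) → ℕ) :
    Mono B (forms σ F) 1 (S : (Fin (n + 1) → ℂ) →ₗ[ℂ] (Fin (n + 1) → ℂ)) x k ↔
      MonCurve σ F B S x k := by
  constructor
  · intro h
    refine ⟨h.le, h.nc, fun t ht i => ?_⟩
    rw [eval₂_eq_eval_map]
    exact h.mem t ht _ ⟨i, rfl⟩
  · intro h
    refine ⟨⟨S.symm, fun x => ?_, fun x => ?_⟩, h.le, h.nc, ?_, fun t _ => ?_⟩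
    · exact S.apply_symm_apply x
    · exact S.symm_apply_apply x
    · rintro t ht _ ⟨i, rfl⟩
      change eval _ (MvPolynomial.map _ (F i)) = 0
      rw [← eval₂_eq_eval_map]
      exact h.mem t ht i
    · rw [map_one]
      exact one_ne_zero

/-- the constant form `1` -/
noncomputable def one (n : ℕ) (K : Type) [Field K] : Unit → MvPolynomial (Fin (n + 1)) (𝓞 K) := fun _ => 1

theorem one_hom (n : ℕ) (K : Type) [Field K] : ∀ l, ∃ e, (one n K l).IsHomogeneous e :=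
  fun _ => ⟨0, isHomogeneous_one _ _⟩

/-- if `V(L)` is finite for all `L` then `V` contains no rational curves and thus no monomial
curves -/
theorem noMono_of_finite [NumberField K] [Finite ι] (hF : ∀ i, ∃ e, (F i).IsHomogeneous e)
    (h : RationalFinite F (one n K)) (B : ℕ) (S : (Fin (n + 1) → ℂ) ≃ₗ[ℂ] (Fin (n + 1) → ℂ))
    (x : Fin (n + 1) → ℂ) (k : Fin (n + 1) → ℕ) : ¬ MonCurve σ F B S x k := by
  intro hM
  have hrat : RatCurvesIn σ F (one n K) :=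
    ((tfae σ F (one n K) hF (one_hom n K)).out 1 5).2 (rec_of_rational F (one n K) h)
  obtain ⟨i, j, hi, hj, hij⟩ := hM.nc
  -- the polynomial curve
  set p : Fin (n + 1) → Polynomial ℂ := fun l =>
    ∑ a, Polynomial.C (S (Pi.single a 1) l * x a) * Polynomial.X ^ k a with hp
  have hpe : ∀ t : ℂ, (fun l => (p l).eval t) = S fun a => x a * t ^ k a := by
    intro t
    have h1 : (fun a => x a * t ^ k a) = ∑ a, (x a * t ^ k a) • (Pi.single a 1 : Fin (n + 1) → ℂ) := by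
      funext b
      simp [Finset.sum_apply, Pi.single_apply]
    rw [h1, map_sum]
    funext l
    rw [hp, Finset.sum_apply, Polynomial.eval_finsetSum]
    refine Finset.sum_congr rfl fun a _ => ?_
    rw [map_smul, Pi.smul_apply, smul_eq_mul, Polynomial.eval_mul, Polynomial.eval_C,
      Polynomial.eval_pow, Polynomial.eval_X]
    ring
  have hmem : ∀ t i, eval₂ (σ.comp (algebraMap (𝓞 K) K)) (fun l => (p l).eval t) (F i) = 0 := by
    intro t i
    rw [eval₂_eq_eval_map, ← Pool.Agent.TH143.EL.eval_comp_poly]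
    have h2 : (aeval p (MvPolynomial.map (σ.comp (algebraMap (𝓞 K) K)) (F i)) :
        Polynomial ℂ) = 0 := by
      apply Polynomial.eq_zero_of_infinite_isRoot
      refine Set.Infinite.mono (s := {u : ℂ | u ≠ 0}) ?_
        (Set.finite_singleton (0 : ℂ)).infinite_compl
      intro u hu
      rw [Set.mem_ofPred_eq, Polynomial.IsRoot.def, Pool.Agent.TH143.EL.eval_comp_poly, hpe,
        ← eval₂_eq_eval_map]
      exact hM.mem u hu i
    rw [h2, Polynomial.eval_zero]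
  have h1 := hrat p hmem ?_ 1 ()
  · change eval₂ _ _ (1 : MvPolynomial (Fin (n + 1)) (𝓞 K)) = 0 at h1
    rw [eval₂_one] at h1
    exact one_ne_zero h1
  · -- nonconstant
    by_contra hcon
    push Not at hcon
    have h2 : ∃ l, (p l).eval 1 ≠ 0 := by
      by_contra h3
      push Not at h3
      have h4 : (fun l => (p l).eval 1) = 0 := funext h3
      rw [hpe] at h4
      have h5 := S.map_eq_zero_iff.1 h4
      have h6 := congrFun h5 i
      simp only [one_pow, mul_one, Pi.zero_apply] at h6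
      exact hi h6
    obtain ⟨l, hl⟩ := h2
    set c : ℂ := (p l).eval 2 / (p l).eval 1 with hc
    have h3 : (fun a => (p a).eval 2) = c • fun a => (p a).eval 1 := by
      funext a
      have h4 := hcon 2 1 a l
      rw [Pi.smul_apply, smul_eq_mul, hc]
      field_simp
      linear_combination h4
    rw [hpe, hpe, ← map_smul] at h3
    have h4 := S.injective h3
    have h5 := congrFun h4 i
    have h6 := congrFun h4 j
    simp only [Pi.smul_apply, smul_eq_mul, one_pow, mul_one] at h5 h6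
    have h7 : (2 : ℂ) ^ k i = c := mul_left_cancel₀ hi (by rw [h5]; ring)
    have h8 : (2 : ℂ) ^ k j = c := mul_left_cancel₀ hj (by rw [h6]; ring)
    have h9 : ((2 ^ k i : ℕ) : ℂ) = ((2 ^ k j : ℕ) : ℂ) := by
      push_cast
      rw [h7, h8]
    exact hij (Nat.pow_right_injective (le_refl 2) (by exact_mod_cast h9))

end Pool.Agent.Q72.OK
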