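import Pool.Agent.Q72.OK.Phi

/-! Limits of projectively holomorphic maps. -/

set_option autoImplicit false

open Filter Topology Metric Set

namespace Pool.Agent.Q72.OK

variable {ι : Type} {l : Filter ι} {n : ℕ}

/-- continuous convergence -/
def CConv {E : Type*} [TopologicalSpace E] (l : Filter ι) (U : Set ℂ) (φ : ι → ℂ → E) (ψ : ℂ → E) :
    Prop := ∀ z ∈ U, Tendsto (fun p : ι × ℂ => φ p.1 p.2) (l ×ˢ 𝓝 z) (𝓝 (ψ z))

lemma CConv.comp {E E' : Type*} [TopologicalSpace E] [TopologicalSpace E'] {U : Set ℂ}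
    {φ : ι → ℂ → E} {ψ : ℂ → E} (h : CConv l U φ ψ) {g : E → E'}
    (hg : ∀ z ∈ U, ContinuousAt g (ψ z)) :
    CConv l U (fun n z => g (φ n z)) (fun z => g (ψ z)) := fun z hz =>
  (hg z hz).tendsto.comp (h z hz)

lemma CConv.pointwise {E : Type*} [TopologicalSpace E] {U : Set ℂ}
    {φ : ι → ℂ → E} {ψ : ℂ → E} (h : CConv l U φ ψ) {z : ℂ} (hz : z ∈ U) :
    Tendsto (fun n => φ n z) l (𝓝 (ψ z)) := by
  have h1 : Tendsto (fun n : ι => (n, z)) l (l ×ˢ 𝓝 z) :=
    tendsto_id.prodMk (tendsto_const_nhds)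
  exact (h z hz).comp h1

lemma CConv.continuousAt [l.NeBot] {E : Type*} [PseudoMetricSpace E] {U : Set ℂ} (hU : IsOpen U)
    {φ : ι → ℂ → E} {ψ : ℂ → E} (h : CConv l U φ ψ) {z : ℂ} (hz : z ∈ U) : ContinuousAt ψ z := by
  rw [Metric.continuousAt_iff']
  intro ε hε
  have h1 := (Metric.tendsto_nhds.1 (h z hz)) (ε / 2) (by positivity)
  rw [eventually_prod_iff] at h1
  obtain ⟨pa, hpa, pb, hpb, hab⟩ := h1
  filter_upwards [hpb, hU.mem_nhds hz] with w hw hwU
  have h2 := Metric.tendsto_nhds.1 (h.pointwise hwU) (ε / 2) (by positivity)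
  obtain ⟨n, hn1, hn2⟩ := (hpa.and h2).exists
  have h3 := hab hn1 hw
  calc dist (ψ w) (ψ z) ≤ dist (ψ w) (φ n w) + dist (φ n w) (ψ z) := dist_triangle _ _ _
    _ < ε / 2 + ε / 2 := by
        rw [dist_comm (ψ w)]
        exact add_lt_add hn2 h3
    _ = ε := by ring

lemma CConv.locUnif [l.NeBot] {E : Type*} [PseudoMetricSpace E] {U : Set ℂ} (hU : IsOpen U)
    {φ : ι → ℂ → E} {ψ : ℂ → E} (h : CConv l U φ ψ) : TendstoLocallyUniformlyOn φ ψ l U := by
  rw [tendstoLocallyUniformlyOn_iff_forall_tendsto]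
  intro z hz
  have h1 : Tendsto (fun y : ι × ℂ => ψ y.2) (l ×ˢ 𝓝[U] z) (𝓝 (ψ z)) := by
    have := (h.continuousAt hU hz).tendsto
    exact this.comp (tendsto_snd.mono_right nhdsWithin_le_nhds)
  have h2 : Tendsto (fun y : ι × ℂ => φ y.1 y.2) (l ×ˢ 𝓝[U] z) (𝓝 (ψ z)) :=
    (h z hz).mono_left (prod_mono le_rfl nhdsWithin_le_nhds)
  have h3 := h1.prodMk_nhds h2
  exact h3.mono_right (nhds_le_uniformity _)

/-- a limit of projectively holomorphic maps is projectively holomorphic, and the derivatives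
converge -/
theorem holP_limit [l.NeBot] {U : Set ℂ} (hU : IsOpen U) {φ : ι → ℂ → Mat n} {ψ : ℂ → Mat n}
    (h : CConv l U φ ψ) (hφ : ∀ᶠ n in l, HolP U (φ n)) (hψ : ∀ z ∈ U, ψ z ∈ PM) :
    HolP U ψ ∧ ∀ z ∈ U, Tendsto (fun n => fderiv ℝ (φ n) z) l (𝓝 (fderiv ℝ ψ z)) := by
  have main : ∀ z ∈ U, ∃ V : Set ℂ, IsOpen V ∧ z ∈ V ∧ V ⊆ U ∧ ∃ i : Fin (n + 1),
      (∀ w ∈ V, ψ w i i ≠ 0) ∧ (∀ᶠ n in l, ∀ w ∈ V, φ n w i i ≠ 0) ∧
      DifferentiableOn ℂ (fun w => chart i (ψ w)) V ∧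
      Tendsto (fun n => fderiv ℂ (fun w => chart i (φ n w)) z) l
        (𝓝 (fderiv ℂ (fun w => chart i (ψ w)) z)) := by
    intro z hz
    obtain ⟨i, hi⟩ := PM.exists_diag (hψ z hz)
    have hcont : Continuous fun M : Mat n => M i i := continuous_apply_apply i i
    have h1 : ∀ᶠ p : ι × ℂ in l ×ˢ 𝓝 z, φ p.1 p.2 i i ≠ 0 :=
      ((hcont.continuousAt.tendsto).comp (h z hz)).eventually_ne hi
    rw [eventually_prod_iff] at h1
    obtain ⟨pa, hpa, pb, hpb, hab⟩ := h1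
    have h2 : ∀ᶠ w in 𝓝 z, ψ w i i ≠ 0 :=
      ((hcont.continuousAt).comp (h.continuousAt hU hz)).eventually_ne hi
    obtain ⟨V, hVsub, hV, hzV⟩ := _root_.mem_nhds_iff.1 ((hpb.and h2).and (hU.mem_nhds hz))
    have hVU : V ⊆ U := fun w hw => (hVsub hw).2
    have hψV : ∀ w ∈ V, ψ w i i ≠ 0 := fun w hw => (hVsub hw).1.2
    have hφV : ∀ᶠ n in l, ∀ w ∈ V, φ n w i i ≠ 0 := by
      filter_upwards [hpa] with n hn w hw
      exact hab hn (hVsub hw).1.1
    have hCC : CConv l V (fun n w => chart i (φ n w)) (fun w => chart i (ψ w)) :=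
      CConv.comp (fun w hw => h w (hVU hw)) (fun w hw => continuousAt_chart (hψV w hw))
    have hdiff : ∀ᶠ n in l, DifferentiableOn ℂ (fun w => chart i (φ n w)) V := by
      filter_upwards [hφ, hφV] with n hn hn' w hw
      exact (hn.diff_chart (hVU hw) (hn' w hw)).differentiableWithinAt
    have hLU := hCC.locUnif hV
    have hd : DifferentiableOn ℂ (fun w => chart i (ψ w)) V := hLU.differentiableOn hdiff hV
    refine ⟨V, hV, hzV, hVU, i, hψV, hφV, hd, ?_⟩
    have h3 := (hLU.deriv hdiff hV).tendsto_at hzV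
    have h4 : ∀ f : ℂ → Fin (n + 1) → ℂ, fderiv ℂ f z = ContinuousLinearMap.toSpanSingleton ℂ (deriv f z) := by
      intro f
      apply ContinuousLinearMap.ext_ring
      rw [ContinuousLinearMap.toSpanSingleton_apply, one_smul, fderiv_apply_one_eq_deriv]
    simp only [h4]
    have h5 : Continuous fun v : Fin (n + 1) → ℂ => ContinuousLinearMap.toSpanSingleton ℂ v :=
      (ContinuousLinearMap.toSpanSingletonCLE (𝕜 := ℂ) (E := Fin (n + 1) → ℂ)).continuous
    exact (h5.tendsto _).comp h3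
  constructor
  · intro z hz
    obtain ⟨V, hV, hzV, hVU, i, hψV, -, hd, -⟩ := main z hz
    refine ⟨V, fun w => chart i (ψ w), hV, hzV, hd, fun w hw => ⟨PM.chart_ne (hψV w hw), ?_⟩⟩
    exact (PM.Phi_chart (hψ w (hVU hw)) (hψV w hw)).symm
  · intro z hz
    obtain ⟨V, hV, hzV, hVU, i, hψV, hφV, hd, hT⟩ := main z hz
    have key : ∀ {χ : ℂ → Mat n}, (∀ w ∈ V, χ w ∈ PM) → (∀ w ∈ V, χ w i i ≠ 0) →
        DifferentiableAt ℂ (fun w => chart i (χ w)) z →
        fderiv ℝ χ z = (fderiv ℝ Phi (chart i (χ z))).comp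
          ((fderiv ℂ (fun w => chart i (χ w)) z).restrictScalars ℝ) := by
      intro χ hχ hχi hχd
      have h1 : χ =ᶠ[𝓝 z] fun w => Phi (chart i (χ w)) := by
        filter_upwards [hV.mem_nhds hzV] with w hw
        exact (PM.Phi_chart (hχ w hw) (hχi w hw)).symm
      rw [h1.fderiv_eq]
      have h2 : DifferentiableAt ℝ Phi (chart i (χ z)) :=
        (contDiffAt_Phi (PM.chart_ne (hχi z hzV))).differentiableAt (by norm_num)
      have h3 : HasFDerivAt (fun w => chart i (χ w))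
          ((fderiv ℂ (fun w => chart i (χ w)) z).restrictScalars ℝ) z :=
        hχd.hasFDerivAt.restrictScalars ℝ
      exact (h2.hasFDerivAt.comp z h3).fderiv
    have hψd : DifferentiableAt ℂ (fun w => chart i (ψ w)) z :=
      (hd z hzV).differentiableAt (hV.mem_nhds hzV)
    rw [key (fun w hw => hψ w (hVU hw)) hψV hψd]
    have hev : ∀ᶠ n in l, fderiv ℝ (φ n) z = (fderiv ℝ Phi (chart i (φ n z))).comp
          ((fderiv ℂ (fun w => chart i (φ n w)) z).restrictScalars ℝ) := by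
      filter_upwards [hφ, hφV] with n hn hn'
      exact key (fun w hw => hn.mem_PM (hVU hw)) hn' (hn.diff_chart (hVU hzV) (hn' z hzV))
    refine Tendsto.congr' (hev.mono fun n hn => hn.symm) ?_
    have hP : ContinuousAt (fderiv ℝ Phi) (chart i (ψ z)) :=
      ((contDiffAt_Phi (PM.chart_ne (hψV z hzV))).fderiv_right (m := 0) (by norm_num)).continuousAt
    have hA : Tendsto (fun n => fderiv ℝ Phi (chart i (φ n z))) l
        (𝓝 (fderiv ℝ Phi (chart i (ψ z)))) :=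
      hP.tendsto.comp ((continuousAt_chart (hψV z hzV)).tendsto.comp (h.pointwise hz))
    have hB : Tendsto (fun n => (fderiv ℂ (fun w => chart i (φ n w)) z).restrictScalars ℝ) l
        (𝓝 ((fderiv ℂ (fun w => chart i (ψ w)) z).restrictScalars ℝ)) := by
      have hc : Continuous fun A : ℂ →L[ℂ] (Fin (n + 1) → ℂ) => A.restrictScalars ℝ :=
        (ContinuousLinearMap.restrictScalarsL ℂ ℂ (Fin (n + 1) → ℂ) ℝ ℝ).continuous
      exact (hc.tendsto _).comp hT
    have hc : Continuous fun p : ((Fin (n + 1) → ℂ) →L[ℝ] Mat n) × (ℂ →L[ℝ] (Fin (n + 1) → ℂ)) =>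
        p.1.comp p.2 := isBoundedBilinearMap_comp.continuous
    exact (hc.tendsto _).comp (hA.prodMk_nhds hB)

end Pool.Agent.Q72.OK
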