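import Pool.Agent.Q72.OK.Kob
import Pool.Agent.Q72.OK.Lift
import Pool.Agent.Q72.TR.App2

/-!
Entire curves and the Kobayashi pseudodistance of orbifold pairs.
-/

set_option autoImplicit false

open Filter Topology Metric Set MvPolynomial
open scoped LinearAlgebra.Projectivization

namespace Pool.Agent.Q72.OK

open Pool.Agent.Q72.TR (Cur MultGe Inv)

variable {n : ℕ} {I : Type} {m : I → ℕ} {q : I → (Fin (n + 1) → ℂ) → ℂ}

/-- entire lifts without zeros -/
theorem HolO.entire (hR : S_R) (hq : HomFun q) {φ : ℂ → Mat n} (h : HolO m q univ φ) :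
    ∃ f : ℂ → Fin (n + 1) → ℂ, Differentiable ℂ f ∧ (∀ z, f z ≠ 0) ∧ (∀ z, φ z = Phi (f z)) ∧
      ∀ z, OrbAt m q f z := by
  obtain ⟨F, hFd, hF0, hF⟩ := exists_lift h.holP
  obtain ⟨g, G, hg, hG, hFG, hG0⟩ := hR n F hFd hF0
  have hg0 : ∃ z, g z ≠ 0 := by
    obtain ⟨z, hz⟩ := hF0
    refine ⟨z, fun h0 => hz ?_⟩
    rw [hFG, h0, zero_smul]
  have hφ : ∀ z, g z ≠ 0 → φ z = Phi (G z) := by
    intro z hz
    have h1 : F z ≠ 0 := by
      rw [hFG]
      exact smul_ne_zero hz (hG0 z)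
    rw [hF z h1, hFG, Phi_smul hz]
  have hall : ∀ z, φ z = Phi (G z) := by
    intro z
    have h1 : (𝓝[{z | g z ≠ 0}] z).NeBot := mem_closure_iff_nhdsWithin_neBot.1 (dense_ne hg hg0 z)
    have h2 : Tendsto φ (𝓝[{z | g z ≠ 0}] z) (𝓝 (φ z)) :=
      (h.holP.continuousAt (mem_univ z)).tendsto.mono_left nhdsWithin_le_nhds
    have h3 : Tendsto (fun w => Phi (G w)) (𝓝[{z | g z ≠ 0}] z) (𝓝 (Phi (G z))) :=
      (((continuousAt_Phi (hG0 z)).comp hG.continuous.continuousAt).tendsto).mono_left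
        nhdsWithin_le_nhds
    refine tendsto_nhds_unique h2 (h3.congr' ?_)
    filter_upwards [self_mem_nhdsWithin] with w hw
    exact (hφ w hw).symm
  exact ⟨G, hG, hG0, hall, fun z => h.lift hq isOpen_univ (subset_univ _) hG.differentiableOn
    (fun w _ => ⟨hG0 w, hall w⟩) (mem_univ z)⟩

/-- the projection matrices of the points of a projective set -/
def matSet (E : Set (MvPolynomial (Fin (n + 1)) ℂ)) : Set (Mat n) :=
  {M | ∃ u : Fin (n + 1) → ℂ, u ≠ 0 ∧ M = Phi u ∧ ∀ F ∈ E, eval u F = 0}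

variable {E : Set (MvPolynomial (Fin (n + 1)) ℂ)}

theorem matSet_sub : matSet E ⊆ PM := by
  rintro M ⟨u, hu, rfl, -⟩
  exact ⟨u, hu, rfl⟩

theorem eval_smul {F : MvPolynomial (Fin (n + 1)) ℂ} {e : ℕ} (hF : F.IsHomogeneous e) (c : ℂ)
    (u : Fin (n + 1) → ℂ) : eval (c • u) F = c ^ e * eval u F := by
  have h1 : c • u = fun j => c * u j := rfl
  rw [h1]
  exact Pool.Agent.Q72.SH.eval_scale hF c u

theorem mem_of_phi (hE : ∀ F ∈ E, ∃ e, F.IsHomogeneous e) {u : Fin (n + 1) → ℂ} (hu : u ≠ 0)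
    (h : Phi u ∈ matSet E) : ∀ F ∈ E, eval u F = 0 := by
  obtain ⟨v, hv, he, hF⟩ := h
  obtain ⟨c, hc, rfl⟩ := Phi_inj hv hu he.symm
  intro F hFE
  obtain ⟨e, hFe⟩ := hE F hFE
  rw [eval_smul hFe, hF F hFE, mul_zero]

theorem isCompact_matSet (hE : ∀ F ∈ E, ∃ e, F.IsHomogeneous e) : IsCompact (matSet E) := by
  set T : Set (Fin (n + 1) → ℂ) := sphere 0 1 ∩ {u | ∀ F ∈ E, eval u F = 0} with hT
  have h1 : IsCompact T := by
    refine (isCompact_sphere _ _).inter_right ?_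
    have : {u : Fin (n + 1) → ℂ | ∀ F ∈ E, eval u F = 0} = ⋂ F ∈ E, {u | eval u F = 0} := by
      ext u
      simp
    rw [this]
    exact isClosed_biInter fun F _ => isClosed_eq (MvPolynomial.continuous_eval F) continuous_const
  have h2 : matSet E = Phi '' T := by
    ext M
    constructor
    · rintro ⟨u, hu, rfl, hF⟩
      have hn : ‖u‖ ≠ 0 := norm_ne_zero_iff.2 hu
      have hc : ((‖u‖ : ℂ))⁻¹ ≠ 0 := inv_ne_zero (by exact_mod_cast hn)
      refine ⟨((‖u‖ : ℂ))⁻¹ • u, ⟨?_, fun F hFE => ?_⟩, Phi_smul hc u⟩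
      · rw [mem_sphere_zero_iff_norm, norm_smul, norm_inv, Complex.norm_real, norm_norm,
          inv_mul_cancel₀ hn]
      · obtain ⟨e, he⟩ := hE F hFE
        rw [eval_smul he, hF F hFE, mul_zero]
    · rintro ⟨u, ⟨hu, hF⟩, rfl⟩
      refine ⟨u, ?_, rfl, hF⟩
      rintro rfl
      rw [mem_sphere_zero_iff_norm, norm_zero] at hu
      exact zero_ne_one hu
  rw [h2]
  refine h1.image_of_continuousOn fun u hu => (continuousAt_Phi ?_).continuousWithinAt
  rintro rfl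
  have := hu.1
  rw [mem_sphere_zero_iff_norm, norm_zero] at this
  exact zero_ne_one this

theorem PhiP_mem (hE : ∀ F ∈ E, ∃ e, F.IsHomogeneous e) {p : ℙ ℂ (Fin (n + 1) → ℂ)} :
    PhiP p ∈ matSet E ↔ p ∈ zeroSet E := by
  constructor
  · intro h F hF
    exact mem_of_phi hE p.rep_nonzero h F hF
  · intro h
    exact ⟨p.rep, p.rep_nonzero, rfl, h⟩

/-- **Hyperbolicity from the absence of entire curves.** -/
theorem hyperbolic_of (hR : S_R) (hH : S_H) {k : ℕ} (ℓ : (Fin (n + 1) → ℂ) ≃ₗ[ℂ] (Fin (n + 1) → ℂ))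
    (hE : ∀ F ∈ E, ∃ e, F.IsHomogeneous e)
    (h : ∀ f, Cur E 1 f → ¬ MultGe k (ℓ : (Fin (n + 1) → ℂ) →ₗ[ℂ] (Fin (n + 1) → ℂ)) 1 f) :
    ∃ c : ℝ, 0 < c ∧ ∀ p q : ℙ ℂ (Fin (n + 1) → ℂ),
      ENNReal.ofReal (c * dist (PhiP q) (PhiP p)) ≤ kobayashi k ℓ (zeroSet E) p q := by
  have hq := lin_hom ℓ
  obtain ⟨C, hC, hb⟩ := brody (m := fun _ => k) hH hq (isCompact_matSet hE) matSet_sub (by
    intro φ hφ hS
    obtain ⟨f, hfd, hf0, hfφ, ho⟩ := hφ.entire hR hq
    by_contra hcon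
    push Not at hcon
    obtain ⟨z, hz⟩ := hcon
    refine h f ⟨hfd, hf0, fun w F hF => ?_, ⟨0, by rw [map_one]; exact one_ne_zero⟩, z, 0, ?_⟩
      ⟨fun i x _ hx => ho x i hx, fun x hx => ?_⟩
    · have h1 := hS w
      rw [hfφ] at h1
      exact mem_of_phi hE (hf0 w) h1 F hF
    · intro c hc
      apply hz
      rw [hfφ, hfφ, hc]
      refine Phi_smul (fun hc0 => hf0 z ?_) _
      rw [hc, hc0, zero_smul]
    · rw [map_one] at hx
      exact absurd hx one_ne_zero)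
  obtain ⟨L, hL, hlip⟩ := disc_lip hq (isCompact_matSet hE) hC hb
  refine ⟨1 / L, by positivity, fun p q => ?_⟩
  rw [one_div, mul_comm, ← div_eq_mul_inv]
  refine kobayashi_of_lip hL (fun f hf hfX s hs t ht => ?_) p q
  have h1 := hlip (fun z => PhiP (f z)) hf.holO (fun z hz => (PhiP_mem hE).2 (hfX z hz)) s hs t ht
  rwa [cost_eq] at h1

theorem hyperbolic_iff_pos {k : ℕ} {ℓ : (Fin (n + 1) → ℂ) ≃ₗ[ℂ] (Fin (n + 1) → ℂ)}
    {X : Set (ℙ ℂ (Fin (n + 1) → ℂ))} {c : ℝ} (hc : 0 < c)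
    (h : ∀ p q : ℙ ℂ (Fin (n + 1) → ℂ),
      ENNReal.ofReal (c * dist (PhiP q) (PhiP p)) ≤ kobayashi k ℓ X p q) : Hyperbolic k ℓ X := by
  intro p _ q _ hpq
  refine lt_of_lt_of_le (ENNReal.ofReal_pos.2 (mul_pos hc (dist_pos.2 fun h => ?_))) (h p q)
  exact hpq (PhiP_inj h).symm

/-- **Entire curves contradict hyperbolicity.** -/
theorem no_curve_of_hyperbolic {k : ℕ} {ℓ : (Fin (n + 1) → ℂ) ≃ₗ[ℂ] (Fin (n + 1) → ℂ)}
    (hE : ∀ F ∈ E, ∃ e, F.IsHomogeneous e) (h : Hyperbolic k ℓ (zeroSet E))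
    {f : ℂ → Fin (n + 1) → ℂ} (hf : Cur E 1 f)
    (hm : MultGe k (ℓ : (Fin (n + 1) → ℂ) →ₗ[ℂ] (Fin (n + 1) → ℂ)) 1 f) : False := by
  obtain ⟨z, w, hzw⟩ := hf.nc
  set P : ℂ → ℙ ℂ (Fin (n + 1) → ℂ) := fun u => Projectivization.mk ℂ (f u) (hf.ne u) with hP
  have hPX : ∀ u, P u ∈ zeroSet E := by
    intro u F hF
    obtain ⟨a, ha⟩ := Projectivization.exists_smul_eq_mk_rep ℂ (f u) (hf.ne u)
    obtain ⟨e, he⟩ := hE F hF
    change eval (Projectivization.mk ℂ (f u) (hf.ne u)).rep F = 0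
    rw [← ha]
    have h1 := eval_smul he (a : ℂ) (f u)
    rw [hf.mem u F hF, mul_zero] at h1
    exact h1
  have hne : P w ≠ P z := by
    intro he
    rw [hP] at he
    rw [Projectivization.mk_eq_mk_iff'] at he
    obtain ⟨a, ha⟩ := he
    -- f z is a multiple of f w
    have ha0 : a ≠ 0 := by
      rintro rfl
      rw [zero_smul] at ha
      exact hf.ne w ha.symm
    exact hzw a⁻¹ (by rw [← ha, smul_smul, inv_mul_cancel₀ ha0, one_smul])
  have hpos := h (P w) (hPX w) (P z) (hPX z) hne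
  -- orbifold discs
  have horb : ∀ R : ℝ, 0 < R → OrbifoldOn k ℓ (ball 0 1) (fun u => P (w + R * u)) := by
    intro R hR u _
    have hd : Differentiable ℂ fun u : ℂ => w + (R : ℂ) * u := by fun_prop
    refine ⟨univ, fun u => f (w + R * u), isOpen_univ, mem_univ _,
      (hf.df.comp hd).differentiableOn, fun v _ => ⟨hf.ne _, rfl⟩, fun v _ i hi => ?_⟩
    have hli : Differentiable ℂ fun u => ℓ (f u) i := ((lin_hom ℓ).diff i).comp hf.df
    have h0 : (k : ℕ∞) ≤ analyticOrderAt (fun u => ℓ (f u) i) (w + R * v) := by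
      by_cases hex : ∃ y, ℓ (f y) i ≠ 0
      · exact hm.1 i _ hex hi
      · push Not at hex
        have h1 : analyticOrderAt (fun u => ℓ (f u) i) (w + R * v) = ⊤ := by
          rw [analyticOrderAt_eq_top]
          exact Eventually.of_forall hex
        rw [h1]
        exact le_top
    exact order_comp (g := fun u => ℓ (f u) i) (k := fun u => w + R * u)
      (hli.analyticAt _) (hd.analyticAt _) h0
  -- the distance is zero
  have hzero : kobayashi k ℓ (zeroSet E) (P w) (P z) = 0 := by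
    refine le_antisymm ?_ zero_le'
    refine ENNReal.le_of_forall_pos_le_add fun ε hε _ => ?_
    rw [zero_add]
    -- choose R
    have hlim : Tendsto (fun R : ℝ => Real.log ((1 + ‖z - w‖ / R) / (1 - ‖z - w‖ / R))) atTop
        (𝓝 0) := by
      have h1 : Tendsto (fun R : ℝ => ‖z - w‖ / R) atTop (𝓝 0) :=
        tendsto_const_nhds.div_atTop tendsto_id
      have h2 : Tendsto (fun R : ℝ => (1 + ‖z - w‖ / R) / (1 - ‖z - w‖ / R)) atTop
          (𝓝 ((1 + 0) / (1 - 0))) :=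
        (tendsto_const_nhds.add h1).div (tendsto_const_nhds.sub h1) (by norm_num)
      have h3 := (Real.continuousAt_log (x := (1 + 0) / (1 - 0)) (by norm_num)).tendsto.comp h2
      have h4 : Real.log ((1 + 0) / (1 - 0)) = 0 := by norm_num
      rw [h4] at h3
      exact h3
    obtain ⟨R, hR1, hR2, hR3⟩ := ((hlim.eventually_lt_const (show (0 : ℝ) < ε from hε)).and
      ((eventually_gt_atTop (‖z - w‖)).and (eventually_gt_atTop (0 : ℝ)))).exists
    have hRc : (R : ℂ) ≠ 0 := by exact_mod_cast hR3.ne'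
    have hchain : IsChainLength k ℓ (zeroSet E) (P w) (P z)
        (∑ _i : Fin 1, poincareDist 0 ((z - w) / R)) := by
      refine ⟨1, ![P w, P z], fun _ u => P (w + R * u), fun _ => 0, fun _ => (z - w) / R,
        rfl, rfl, fun i => ⟨horb R hR3, fun v _ => hPX _, mem_ball_self one_pos, ?_, ?_, ?_⟩, rfl⟩
      · rw [mem_ball_zero_iff, norm_div, Complex.norm_real, Real.norm_of_nonneg hR3.le,
          div_lt_one hR3]
        exact hR2
      · fin_cases i
        simp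
      · fin_cases i
        have h5 : w + (R : ℂ) * ((z - w) / R) = z := by
          field_simp
          ring
        simp [h5]
    refine (iInf₂_le _ hchain).trans ?_
    have h4 : (∑ _i : Fin 1, poincareDist 0 ((z - w) / R)) ≤ ε := by
      rw [Fin.sum_univ_one]
      unfold poincareDist
      simp only [zero_sub, norm_neg, map_zero, zero_mul, sub_zero, norm_one, div_one, norm_div,
        Complex.norm_real, Real.norm_of_nonneg hR3.le]
      exact hR1.le
    exact (ENNReal.ofReal_le_ofReal h4).trans (le_of_eq ENNReal.ofReal_coe_nnreal)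
  rw [hzero] at hpos
  exact lt_irrefl _ hpos

end Pool.Agent.Q72.OK
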