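import Pool.Agent.Q72.OK.Lim
import Pool.Agent.Q72.OK.Stm

/-!
Projectively holomorphic maps with conditions on multiplicities.
-/

set_option autoImplicit false

open Filter Topology Metric Set

namespace Pool.Agent.Q72.OK

variable {n : ℕ} {I : Type}

/-- homogeneous holomorphic functions -/
structure HomFun (q : I → (Fin (n + 1) → ℂ) → ℂ) : Prop where
  diff : ∀ a, Differentiable ℂ (q a)
  hom : ∀ a, ∃ e : ℕ, ∀ (c : ℂ) x, q a (c • x) = c ^ e * q a x

/-- all intersections of the lift `F` with `q a = 0` have a multiplicity at least `m a` -/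
def OrbAt (m : I → ℕ) (q : I → (Fin (n + 1) → ℂ) → ℂ) (F : ℂ → Fin (n + 1) → ℂ) (w : ℂ) : Prop :=
  ∀ a, q a (F w) = 0 → (m a : ℕ∞) ≤ analyticOrderAt (fun u => q a (F u)) w

/-- `φ` is projectively holomorphic on `U` and its intersections with `q a = 0` have a multiplicity
at least `m a` -/
def HolO (m : I → ℕ) (q : I → (Fin (n + 1) → ℂ) → ℂ) (U : Set ℂ) (φ : ℂ → Mat n) : Prop :=
  ∀ z ∈ U, ∃ (V : Set ℂ) (F : ℂ → Fin (n + 1) → ℂ), IsOpen V ∧ z ∈ V ∧ DifferentiableOn ℂ F V ∧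
    (∀ w ∈ V, F w ≠ 0 ∧ φ w = Phi (F w)) ∧ ∀ w ∈ V, OrbAt m q F w

variable {m : I → ℕ} {q : I → (Fin (n + 1) → ℂ) → ℂ} {U : Set ℂ} {φ : ℂ → Mat n}

lemma HolO.holP (h : HolO m q U φ) : HolP U φ := fun z hz => by
  obtain ⟨V, F, hV, hzV, hd, hF, -⟩ := h z hz
  exact ⟨V, F, hV, hzV, hd, hF⟩

lemma HolO.mono {U' : Set ℂ} (h : HolO m q U φ) (hU : U' ⊆ U) : HolO m q U' φ :=
  fun z hz => h z (hU hz)

/-- changing the lift -/
lemma OrbAt.change (hq : HomFun q) {F F' : ℂ → Fin (n + 1) → ℂ} {V : Set ℂ} (hV : IsOpen V)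
    (hd : DifferentiableOn ℂ F V) (hd' : DifferentiableOn ℂ F' V)
    (h : ∀ w ∈ V, F w ≠ 0) (h' : ∀ w ∈ V, F' w ≠ 0) (he : ∀ w ∈ V, Phi (F w) = Phi (F' w)) {w : ℂ}
    (hw : w ∈ V) (ho : OrbAt m q F w) : OrbAt m q F' w := by
  obtain ⟨i, hi⟩ := Function.ne_iff.1 (h w hw)
  have hi' : F w i ≠ 0 := hi
  have hcomp : ∀ {F : ℂ → Fin (n + 1) → ℂ}, DifferentiableOn ℂ F V → ∀ j,
      AnalyticAt ℂ (fun u => F u j) w := fun {F} hd j =>
    ((differentiableOn_pi.1 hd) j).analyticAt (hV.mem_nhds hw)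
  set c : ℂ → ℂ := fun u => F' u i / F u i with hc
  have hca : AnalyticAt ℂ c w := (hcomp hd' i).div (hcomp hd i) hi'
  have hFc : ContinuousAt (fun u => F u i) w := (hcomp hd i).continuousAt
  have key : ∀ᶠ u in 𝓝 w, c u ≠ 0 ∧ F' u = c u • F u := by
    filter_upwards [hV.mem_nhds hw, hFc.eventually_ne hi'] with u huV hui
    obtain ⟨b, hb, hbe⟩ := Phi_inj (h u huV) (h' u huV) (he u huV)
    have h1 : c u = b := by
      rw [hc]
      change F' u i / F u i = b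
      rw [hbe, Pi.smul_apply, smul_eq_mul, mul_div_assoc, div_self hui, mul_one]
    rw [h1]
    exact ⟨hb, hbe⟩
  intro a ha
  obtain ⟨e, hea⟩ := hq.hom a
  obtain ⟨hc0, hcw⟩ := key.self_of_nhds
  have h1 : q a (F w) = 0 := by
    rw [hcw, hea] at ha
    exact (mul_eq_zero.1 ha).resolve_left (pow_ne_zero _ hc0)
  have h2 := ho a h1
  have hqa : AnalyticAt ℂ (fun u => q a (F u)) w :=
    ((hq.diff a).comp_differentiableOn hd).analyticAt (hV.mem_nhds hw)
  have h3 : (fun u => q a (F' u)) =ᶠ[𝓝 w] fun u => (c u) ^ e * q a (F u) := by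
    filter_upwards [key] with u hu
    rw [hu.2, hea]
  rw [analyticOrderAt_congr h3]
  have h4 : analyticOrderAt (fun u => c u ^ e * q a (F u)) w =
      analyticOrderAt (fun u => c u ^ e) w + analyticOrderAt (fun u => q a (F u)) w :=
    analyticOrderAt_mul (hca.pow e) hqa
  rw [h4]
  exact h2.trans le_add_self

/-- every lift has the property -/
lemma HolO.lift (hq : HomFun q) (h : HolO m q U φ) {V : Set ℂ} {F : ℂ → Fin (n + 1) → ℂ}
    (hV : IsOpen V) (hVU : V ⊆ U) (hd : DifferentiableOn ℂ F V)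
    (hF : ∀ w ∈ V, F w ≠ 0 ∧ φ w = Phi (F w)) {w : ℂ} (hw : w ∈ V) : OrbAt m q F w := by
  obtain ⟨V', F', hV', hwV', hd', hF', ho⟩ := h w (hVU hw)
  refine OrbAt.change hq (V := V ∩ V') (hV.inter hV') (hd'.mono inter_subset_right)
    (hd.mono inter_subset_left) (fun u hu => (hF' u hu.2).1) (fun u hu => (hF u hu.1).1)
    (fun u hu => ?_) ⟨hw, hwV'⟩ (ho w hwV')
  rw [← (hF u hu.1).2, ← (hF' u hu.2).2]

lemma order_comp {g k : ℂ → ℂ} {z : ℂ} (hg : AnalyticAt ℂ g (k z)) (hk : AnalyticAt ℂ k z) {m : ℕ}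
    (h : (m : ℕ∞) ≤ analyticOrderAt g (k z)) : (m : ℕ∞) ≤ analyticOrderAt (fun u => g (k u)) z := by
  have h1 := natCast_le_analyticOrderAt hg (n := m)
  obtain ⟨p, hp, he⟩ := h1.1 h
  have hcomp : AnalyticAt ℂ (fun u => g (k u)) z := hg.fun_comp hk
  have h2 : (fun u => g (k u)) =ᶠ[𝓝 z] fun u => (k u - k z) ^ m * p (k u) := by
    have h3 := hk.continuousAt.eventually he
    filter_upwards [h3] with u hu
    rw [hu, smul_eq_mul]
  rw [analyticOrderAt_congr h2]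
  have hk0 : AnalyticAt ℂ (fun u => k u - k z) z := hk.sub analyticAt_const
  have h4 : analyticOrderAt (fun u => (k u - k z) ^ m * p (k u)) z =
      analyticOrderAt (fun u => (k u - k z) ^ m) z + analyticOrderAt (fun u => p (k u)) z :=
    analyticOrderAt_mul (hk0.pow m) (hp.fun_comp hk)
  rw [h4]
  refine le_trans ?_ le_self_add
  have h5 : analyticOrderAt (fun u => (k u - k z) ^ m) z = m • analyticOrderAt (fun u => k u - k z) z :=
    analyticOrderAt_pow hk0 m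
  rw [h5]
  have h6 : 1 ≤ analyticOrderAt (fun u => k u - k z) z := by
    rw [Order.one_le_iff_ne_zero, hk0.analyticOrderAt_ne_zero]
    ring
  calc (m : ℕ∞) = m • 1 := by simp
    _ ≤ m • analyticOrderAt (fun u => k u - k z) z := by gcongr

lemma HolO.comp (hq : HomFun q) {U' : Set ℂ} (h : HolO m q U φ) (hU' : IsOpen U') {k : ℂ → ℂ}
    (hk : DifferentiableOn ℂ k U') (hmap : MapsTo k U' U) :
    HolO m q U' (fun z => φ (k z)) := by
  intro z hz
  obtain ⟨V, F, hV, hzV, hd, hF, ho⟩ := h _ (hmap hz)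
  refine ⟨U' ∩ k ⁻¹' V, fun w => F (k w), hk.continuousOn.isOpen_inter_preimage hU' hV, ⟨hz, hzV⟩,
    hd.comp (hk.mono inter_subset_left) (fun w hw => hw.2), fun w hw => hF _ hw.2,
    fun w hw a ha => ?_⟩
  have h1 := ho _ hw.2 a ha
  have hqa : AnalyticAt ℂ (fun u => q a (F u)) (k w) :=
    ((hq.diff a).comp_differentiableOn hd).analyticAt (hV.mem_nhds hw.2)
  exact order_comp hqa (hk.analyticAt (hU'.mem_nhds hw.1)) h1

/-- a limit of orbifold maps is an orbifold map -/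
theorem holO_limit (hH : S_H) (hq : HomFun q) {ι : Type} {l : Filter ι} [l.NeBot] (hU : IsOpen U)
    {φ : ι → ℂ → Mat n} {ψ : ℂ → Mat n} (h : CConv l U φ ψ) (hφ : ∀ᶠ i in l, HolO m q U (φ i))
    (hψ : ∀ z ∈ U, ψ z ∈ PM) : HolO m q U ψ := by
  intro z hz
  obtain ⟨i, hi⟩ := PM.exists_diag (hψ z hz)
  have hcont : Continuous fun M : Mat n => M i i := continuous_apply_apply i i
  have h1 : ∀ᶠ p : ι × ℂ in l ×ˢ 𝓝 z, φ p.1 p.2 i i ≠ 0 :=
    ((hcont.continuousAt.tendsto).comp (h z hz)).eventually_ne hi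
  rw [eventually_prod_iff] at h1
  obtain ⟨pa, hpa, pb, hpb, hab⟩ := h1
  have h2 : ∀ᶠ w in 𝓝 z, ψ w i i ≠ 0 :=
    ((hcont.continuousAt).comp (h.continuousAt hU hz)).eventually_ne hi
  obtain ⟨V, hVsub, hV, hzV⟩ := _root_.mem_nhds_iff.1 ((hpb.and h2).and (hU.mem_nhds hz))
  have hVU : V ⊆ U := fun w hw => (hVsub hw).2
  have hψV : ∀ w ∈ V, ψ w i i ≠ 0 := fun w hw => (hVsub hw).1.2
  have hφV : ∀ᶠ k in l, ∀ w ∈ V, φ k w i i ≠ 0 := by
    filter_upwards [hpa] with k hk w hw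
    exact hab hk (hVsub hw).1.1
  have hCC : CConv l V (fun k w => chart i (φ k w)) (fun w => chart i (ψ w)) :=
    CConv.comp (fun w hw => h w (hVU hw)) (fun w hw => continuousAt_chart (hψV w hw))
  have hdiff : ∀ᶠ k in l, DifferentiableOn ℂ (fun w => chart i (φ k w)) V := by
    filter_upwards [hφ, hφV] with k hk hk' w hw
    exact (hk.holP.diff_chart (hVU hw) (hk' w hw)).differentiableWithinAt
  have hd : DifferentiableOn ℂ (fun w => chart i (ψ w)) V :=
    (hCC.locUnif hV).differentiableOn hdiff hV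
  refine ⟨V, fun w => chart i (ψ w), hV, hzV, hd, fun w hw => ⟨PM.chart_ne (hψV w hw),
    (PM.Phi_chart (hψ w (hVU hw)) (hψV w hw)).symm⟩, fun w hw a ha => ?_⟩
  have hCq : CConv l V (fun k w => q a (chart i (φ k w))) (fun w => q a (chart i (ψ w))) :=
    CConv.comp hCC (fun w _ => (hq.diff a).continuous.continuousAt)
  refine hH ι l V (fun k w => q a (chart i (φ k w))) (fun w => q a (chart i (ψ w))) (m a) hV ?_
    (hCq.locUnif hV) ?_ w hw ha
  · filter_upwards [hdiff] with k hk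
    exact (hq.diff a).comp_differentiableOn hk
  · filter_upwards [hφ, hφV, hdiff] with k hk hk' hkd w hw hw0
    exact HolO.lift hq hk hV hVU hkd (fun u hu => ⟨PM.chart_ne (hk' u hu),
      (PM.Phi_chart (hk.holP.mem_PM (hVU hu)) (hk' u hu)).symm⟩) hw a hw0

end Pool.Agent.Q72.OK
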